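import Pool.Agent.Helper757.TI.Maps

set_option autoImplicit false
set_option linter.unusedSectionVars false

open scoped InnerProductSpace ComplexOrder CStarAlgebra Topology
open Filter

noncomputable section

namespace Pool.Agent.Helper757.TI

local instance : PartialOrder BH := CStarAlgebra.spectralOrder BH
local instance : StarOrderedRing BH := CStarAlgebra.spectralOrderedRing BH

/-- The words of length in `[N, 2N)`. -/
def W (N : ℕ) : Finset (List Bool) := (Finset.Ico N (2 * N)).biUnion words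

theorem sum_W {M : Type*} [AddCommMonoid M] (N : ℕ) (F : List Bool → M) :
    ∑ w ∈ W N, F w = ∑ m ∈ Finset.Ico N (2 * N), ∑ w ∈ words m, F w := by
  rw [W, Finset.sum_biUnion]
  intro m _ n _ hmn
  rw [Function.onFun, Finset.disjoint_left]
  intro w hw hw'
  exact hmn ((mem_words.1 hw).symm.trans (mem_words.1 hw'))

/-- Compression to the word vectors. -/
def phi (N : ℕ) : BH →ₗ[ℂ] CStarMatrix (W N) (W N) ℂ :=
  cmp (R := Unit) (fun _ => ()) (fun _ => StarAlgHom.id ℂ BH) (fun w => vw w)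

/-- The map back. -/
def psi (N : ℕ) : CStarMatrix (W N) (W N) ℂ →ₗ[ℂ] BH :=
  syn (T := Unit) (fun _ w => (((√(N : ℝ))⁻¹ : ℝ) : ℂ) • sw w)

/-- The approximate identity maps. -/
def EN (N : ℕ) : BH →ₗ[ℂ] BH := psi N ∘ₗ phi N

theorem phi_apply (N : ℕ) (x : BH) (a b : W N) : phi N x a b = ⟪vw a, x (vw b)⟫_ℂ := by
  rw [phi, cmp_apply, if_pos rfl]
  rfl

theorem sqrt_mul (N : ℕ) (x y : BH) :
    ((((√(N : ℝ))⁻¹ : ℝ) : ℂ) • x) * star ((((√(N : ℝ))⁻¹ : ℝ) : ℂ) • y) =
      ((N : ℂ)⁻¹) • (x * star y) := by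
  rw [star_smul, smul_mul_smul_comm]
  congr 1
  simp only [RCLike.star_def, Complex.conj_ofReal]
  rw [← Complex.ofReal_mul, ← mul_inv, Real.mul_self_sqrt (Nat.cast_nonneg N)]
  push_cast
  rfl

theorem EN_sum (N : ℕ) (x : BH) : EN N x = ∑ a : W N, ∑ b : W N,
      ⟪vw a, x (vw b)⟫_ℂ • ((N : ℂ)⁻¹ • (sw a * star (sw b))) := by
  rw [EN, LinearMap.comp_apply, psi, syn_apply, Finset.univ_unique, Finset.sum_singleton]
  apply Finset.sum_congr rfl
  intro a _
  apply Finset.sum_congr rfl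
  intro b _
  rw [phi_apply, sqrt_mul]

theorem EN_apply (N : ℕ) (x : BH) : EN N x =
    (N : ℂ)⁻¹ • ∑ m ∈ Finset.Ico N (2 * N), ∑ n ∈ Finset.Ico N (2 * N), Th m n x := by
  rw [EN_sum]
  have h2 : ∀ a : W N, ∑ b : W N, ⟪vw a, x (vw b)⟫_ℂ • ((N : ℂ)⁻¹ • (sw a * star (sw b))) =
      ∑ n ∈ Finset.Ico N (2 * N), ∑ b ∈ words n,
        ⟪vw a, x (vw b)⟫_ℂ • ((N : ℂ)⁻¹ • (sw a * star (sw b))) := by
    intro a
    rw [← sum_W]
    exact Finset.sum_coe_sort (W N) (fun b : List Bool =>
      ⟪vw a, x (vw b)⟫_ℂ • ((N : ℂ)⁻¹ • (sw a * star (sw b))))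
  simp_rw [h2]
  rw [Finset.sum_coe_sort (W N) (fun a : List Bool => ∑ n ∈ Finset.Ico N (2 * N), ∑ b ∈ words n,
        ⟪vw a, x (vw b)⟫_ℂ • ((N : ℂ)⁻¹ • (sw a * star (sw b))))]
  rw [sum_W, Finset.smul_sum]
  apply Finset.sum_congr rfl
  intro m _
  rw [Finset.sum_comm, Finset.smul_sum]
  apply Finset.sum_congr rfl
  intro n _
  rw [Th, Finset.smul_sum]
  apply Finset.sum_congr rfl
  intro a _
  rw [Finset.smul_sum]
  apply Finset.sum_congr rfl
  intro b _
  rw [smul_comm]

theorem phi_one (N : ℕ) : phi N 1 = 1 := by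
  ext a b
  rw [phi_apply, CStarMatrix.one_apply]
  show ⟪vw a, vw b⟫_ℂ = _
  rw [vw_inner]
  by_cases h : a = b
  · rw [if_pos h, if_pos (by rw [h])]
  · rw [if_neg h, if_neg (fun h' => h (Subtype.ext h'))]

theorem psi_one (N : ℕ) (hN : 1 ≤ N) : psi N 1 = 1 := by
  rw [← phi_one]
  show EN N 1 = 1
  rw [EN_apply]
  have h1 : ∀ m ∈ Finset.Ico N (2 * N), ∑ n ∈ Finset.Ico N (2 * N), Th m n 1 = 1 := by
    intro m hm
    simp_rw [Th_one]
    rw [Finset.sum_ite_eq, if_pos hm]
  rw [Finset.sum_congr rfl h1, Finset.sum_const, Nat.card_Ico]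
  rw [show 2 * N - N = N by omega, ← Nat.cast_smul_eq_nsmul ℂ, smul_smul, inv_mul_cancel₀, one_smul]
  exact_mod_cast (by omega : N ≠ 0)

theorem norm_EN_le (N : ℕ) (hN : 1 ≤ N) (x : BH) : ‖EN N x‖ ≤ ‖x‖ := by
  have h1 : ‖phi N x‖ ≤ ‖x‖ :=
    norm_le_of_CPalg (phi N) (cmp_star _ _ _) (cmp_CPalg _ _ _) (phi_one N) x
  have h2 : ‖psi N (phi N x)‖ ≤ ‖phi N x‖ :=
    norm_le_of_CPalg (psi N) (syn_star _) (syn_CPalg _) (psi_one N hN) _
  exact h2.trans h1

theorem Th_mono (μ ν : List Bool) {m n : ℕ} (hm : μ.length ≤ m) (hn : ν.length ≤ n) :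
    Th m n (sw μ * star (sw ν)) =
      if n = m - μ.length + ν.length then sw μ * star (sw ν) else 0 := by
  obtain ⟨m', rfl⟩ := Nat.exists_eq_add_of_le' hm
  obtain ⟨n', rfl⟩ := Nat.exists_eq_add_of_le' hn
  have h := Th_sw μ ν m' n' 1
  rw [mul_one] at h
  rw [h, Th_one]
  by_cases hmn : m' = n'
  · rw [if_pos hmn, if_pos (by omega), mul_one]
  · rw [if_neg hmn, if_neg (by omega), mul_zero, zero_mul]

theorem norm_EN_sub (μ ν : List Bool) (N : ℕ) (hN : 1 ≤ N) (hμ : μ.length ≤ N)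
    (hν : ν.length ≤ N) :
    ‖EN N (sw μ * star (sw ν)) - sw μ * star (sw ν)‖ ≤
      ((μ.length + ν.length : ℕ) : ℝ) / N * ‖sw μ * star (sw ν)‖ := by
  set x := sw μ * star (sw ν) with hx
  set I := Finset.Ico N (2 * N) with hI
  set J := I.filter (fun m => m - μ.length + ν.length ∈ I) with hJ
  have h1 : ∑ m ∈ I, ∑ n ∈ I, Th m n x = (J.card : ℂ) • x := by
    have h2 : ∀ m ∈ I, ∑ n ∈ I, Th m n x = if m - μ.length + ν.length ∈ I then x else 0 := by
      intro m hm
      have h3 : ∀ n ∈ I, Th m n x = if m - μ.length + ν.length = n then x else 0 := by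
        intro n hn
        rw [hI, Finset.mem_Ico] at hm hn
        rw [hx, Th_mono μ ν (by omega) (by omega)]
        simp only [eq_comm]
      rw [Finset.sum_congr rfl h3, Finset.sum_ite_eq]
    rw [Finset.sum_congr rfl h2, ← Finset.sum_filter, Finset.sum_const, Nat.cast_smul_eq_nsmul]
  have hcard1 : J.card ≤ N := by
    refine (Finset.card_filter_le _ _).trans ?_
    rw [hI, Nat.card_Ico]
    omega
  have hcard2 : N ≤ J.card + (μ.length + ν.length) := by
    have h3 : Finset.Ico (N + μ.length) (2 * N - ν.length) ⊆ J := by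
      intro m hm
      rw [Finset.mem_Ico] at hm
      rw [hJ, Finset.mem_filter, hI, Finset.mem_Ico, Finset.mem_Ico]
      omega
    have h4 := Finset.card_le_card h3
    rw [Nat.card_Ico] at h4
    omega
  have hN0 : (N : ℂ) ≠ 0 := by exact_mod_cast (by omega : N ≠ 0)
  have h5 : EN N x - x = (((J.card : ℝ) / N - 1 : ℝ) : ℂ) • x := by
    rw [EN_apply, h1, smul_smul]
    push_cast
    rw [sub_smul, one_smul, div_eq_inv_mul]
  rw [h5, norm_smul]
  apply mul_le_mul_of_nonneg_right _ (norm_nonneg _)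
  rw [Complex.norm_real, Real.norm_eq_abs]
  have hNR : (0 : ℝ) < N := by exact_mod_cast (by omega : 0 < N)
  have h6 : (J.card : ℝ) / N - 1 = - (((N : ℝ) - J.card) / N) := by
    field_simp
    ring
  rw [h6, abs_neg, abs_of_nonneg]
  · apply div_le_div_of_nonneg_right _ hNR.le
    have : (N : ℝ) ≤ J.card + ((μ.length + ν.length : ℕ) : ℝ) := by exact_mod_cast hcard2
    linarith
  · apply div_nonneg _ hNR.le
    have : (J.card : ℝ) ≤ N := by exact_mod_cast hcard1
    linarith

/-- The monomials `s_μ s_ν^*`. -/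
def mono : Set BH := {x | ∃ μ ν : List Bool, x = sw μ * star (sw ν)}

/-- Elements that are well approximated. -/
def Good (x : BH) : Prop := ∀ ε : ℝ, 0 < ε → ∃ N₀ : ℕ, ∀ N, N₀ ≤ N → ‖EN N x - x‖ < ε

theorem good_mono {x : BH} (hx : x ∈ mono) : Good x := by
  obtain ⟨μ, ν, rfl⟩ := hx
  intro ε hε
  set C : ℝ := ((μ.length + ν.length : ℕ) : ℝ) * ‖sw μ * star (sw ν)‖ with hC
  have hC0 : 0 ≤ C := by positivity
  obtain ⟨N₁, hN₁⟩ := exists_nat_gt (C / ε)
  refine ⟨N₁ + μ.length + ν.length + 1, fun N hN => ?_⟩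
  refine (norm_EN_sub μ ν N (by omega) (by omega) (by omega)).trans_lt ?_
  have hNR : (0 : ℝ) < N := by exact_mod_cast (by omega : 0 < N)
  rw [div_mul_eq_mul_div, ← hC, div_lt_iff₀ hNR]
  rw [div_lt_iff₀ hε] at hN₁
  have : (N₁ : ℝ) ≤ N := by exact_mod_cast (by omega : N₁ ≤ N)
  nlinarith

theorem good_span {x : BH} (hx : x ∈ Submodule.span ℂ mono) : Good x := by
  induction hx using Submodule.span_induction with
  | mem x hx => exact good_mono hx
  | zero =>
    intro ε hε
    exact ⟨0, fun N _ => by simpa using hε⟩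
  | add x y _ _ hx hy =>
    intro ε hε
    obtain ⟨N₁, h1⟩ := hx (ε / 2) (by positivity)
    obtain ⟨N₂, h2⟩ := hy (ε / 2) (by positivity)
    refine ⟨max N₁ N₂, fun N hN => ?_⟩
    have h3 := h1 N (le_of_max_le_left hN)
    have h4 := h2 N (le_of_max_le_right hN)
    rw [map_add, show EN N x + EN N y - (x + y) = (EN N x - x) + (EN N y - y) by abel]
    exact (norm_add_le _ _).trans_lt (by linarith)
  | smul c x _ hx =>
    intro ε hε
    obtain ⟨N₁, h1⟩ := hx (ε / (‖c‖ + 1)) (by positivity)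
    refine ⟨N₁, fun N hN => ?_⟩
    have h3 := h1 N hN
    rw [map_smul, ← smul_sub, norm_smul]
    rw [lt_div_iff₀ (by positivity)] at h3
    nlinarith [norm_nonneg c, norm_nonneg (EN N x - x)]

theorem good_closure {x : BH} (hx : x ∈ closure (Submodule.span ℂ mono : Set BH)) : Good x := by
  intro ε hε
  rw [Metric.mem_closure_iff] at hx
  obtain ⟨y, hy, hxy⟩ := hx (ε / 3) (by positivity)
  rw [dist_eq_norm] at hxy
  obtain ⟨N₁, h1⟩ := good_span hy (ε / 3) (by positivity)
  refine ⟨N₁ + 1, fun N hN => ?_⟩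
  have h2 := h1 N (by omega)
  have h3 := norm_EN_le N (by omega) (x - y)
  have h4 : EN N x - x = EN N (x - y) + (EN N y - y) - (x - y) := by
    rw [map_sub]; abel
  rw [h4]
  calc _ ≤ ‖EN N (x - y) + (EN N y - y)‖ + ‖x - y‖ := norm_sub_le _ _
    _ ≤ ‖EN N (x - y)‖ + ‖EN N y - y‖ + ‖x - y‖ := by gcongr; exact norm_add_le _ _
    _ < ε := by linarith

/-- The Cuntz algebra `O₂`, realised on `ℓ²(ℕ)`. -/
def O2 : StarSubalgebra ℂ BH :=
  (StarAlgebra.adjoin ℂ (Set.range S)).topologicalClosure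

theorem sw_append (μ ν : List Bool) : sw (μ ++ ν) = sw μ * sw ν := by
  induction μ with
  | nil => simp [sw]
  | cons c μ ih => rw [List.cons_append, sw, sw, ih, mul_assoc]

theorem adjoin_le {x : BH} (hx : x ∈ StarAlgebra.adjoin ℂ (Set.range S)) :
    (∀ y ∈ Submodule.span ℂ mono, x * y ∈ Submodule.span ℂ mono) ∧
    (∀ y ∈ Submodule.span ℂ mono, star x * y ∈ Submodule.span ℂ mono) := by
  have hspan : ∀ z : BH, (∀ y ∈ mono, z * y ∈ Submodule.span ℂ mono) →
      ∀ y ∈ Submodule.span ℂ mono, z * y ∈ Submodule.span ℂ mono := by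
    intro z hz y hy
    induction hy using Submodule.span_induction with
    | mem y hy => exact hz y hy
    | zero => rw [mul_zero]; exact Submodule.zero_mem _
    | add a b _ _ ha hb => rw [mul_add]; exact Submodule.add_mem _ ha hb
    | smul c a _ ha => rw [mul_smul_comm]; exact Submodule.smul_mem _ _ ha
  induction hx using StarAlgebra.adjoin_induction with
  | mem x hx =>
    obtain ⟨c, rfl⟩ := hx
    constructor
    · apply hspan
      rintro _ ⟨μ, ν, rfl⟩
      apply Submodule.subset_span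
      exact ⟨c :: μ, ν, by rw [sw, mul_assoc]⟩
    · apply hspan
      rintro _ ⟨μ, ν, rfl⟩
      cases μ with
      | nil =>
        apply Submodule.subset_span
        refine ⟨[], ν ++ [c], ?_⟩
        rw [sw_append, star_mul]
        simp [sw]
      | cons d μ =>
        by_cases h : c = d
        · subst h
          apply Submodule.subset_span
          refine ⟨μ, ν, ?_⟩
          rw [sw, ← mul_assoc, ← mul_assoc, S_star_S, one_mul]
        · rw [sw, ← mul_assoc, ← mul_assoc, S_star_S_ne h, zero_mul, zero_mul]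
          exact Submodule.zero_mem _
  | algebraMap r =>
    constructor
    · intro y hy
      rw [Algebra.algebraMap_eq_smul_one, smul_mul_assoc, one_mul]
      exact Submodule.smul_mem _ _ hy
    · intro y hy
      rw [Algebra.algebraMap_eq_smul_one, star_smul, star_one, smul_mul_assoc, one_mul]
      exact Submodule.smul_mem _ _ hy
  | add a b _ _ ha hb =>
    constructor
    · intro y hy
      rw [add_mul]
      exact Submodule.add_mem _ (ha.1 y hy) (hb.1 y hy)
    · intro y hy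
      rw [star_add, add_mul]
      exact Submodule.add_mem _ (ha.2 y hy) (hb.2 y hy)
  | mul a b _ _ ha hb =>
    constructor
    · intro y hy
      rw [mul_assoc]
      exact ha.1 _ (hb.1 y hy)
    · intro y hy
      rw [star_mul, mul_assoc]
      exact hb.2 _ (ha.2 y hy)
  | star a _ ha =>
    constructor
    · exact ha.2
    · intro y hy
      rw [star_star]
      exact ha.1 y hy

theorem one_mem_span : (1 : BH) ∈ Submodule.span ℂ mono :=
  Submodule.subset_span ⟨[], [], by simp [sw]⟩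

theorem O2_le {x : BH} (hx : x ∈ O2) : x ∈ closure (Submodule.span ℂ mono : Set BH) := by
  have h1 : (O2 : Set BH) = closure (StarAlgebra.adjoin ℂ (Set.range S) : Set BH) := rfl
  have h2 : x ∈ (O2 : Set BH) := hx
  rw [h1] at h2
  refine closure_mono ?_ h2
  intro y hy
  have := (adjoin_le hy).1 1 one_mem_span
  rwa [mul_one] at this

theorem good_O2 {x : BH} (hx : x ∈ O2) : Good x := good_closure (O2_le hx)

theorem S_mem (c : Bool) : S c ∈ O2 :=
  StarSubalgebra.le_topologicalClosure _ (StarAlgebra.subset_adjoin ℂ _ ⟨c, rfl⟩)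

theorem sw_mem (w : List Bool) : sw w ∈ O2 := by
  induction w with
  | nil => exact one_mem O2
  | cons c w ih => exact mul_mem (S_mem c) ih

theorem O2_isClosed : IsClosed (O2 : Set BH) :=
  StarSubalgebra.isClosed_topologicalClosure _

theorem EN_mem (N : ℕ) (x : BH) : EN N x ∈ O2 := by
  rw [EN_apply]
  apply O2.smul_mem
  apply sum_mem
  intro m _
  apply sum_mem
  intro n _
  rw [Th]
  apply sum_mem
  intro a _
  apply sum_mem
  intro b _
  apply O2.smul_mem
  exact mul_mem (sw_mem a) (star_mem (sw_mem b))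

end Pool.Agent.Helper757.TI
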