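import Mathlib

set_option autoImplicit false

open scoped CStarAlgebra ComplexOrder

namespace Pool.Agent.Helper757.TI

section abs

variable {D : Type*} [NonUnitalCStarAlgebra D] [PartialOrder D] [StarOrderedRing D]

theorem exists_negPart (P : D) (hP : IsSelfAdjoint P) :
    ∃ N R : D, star N = N ∧ N = star R * R ∧ P * N = - (N * N) ∧ (N = 0 → 0 ≤ P) := by
  obtain ⟨R, hR⟩ := CStarAlgebra.nonneg_iff_eq_star_mul_self.1 (CFC.negPart_nonneg P)
  refine ⟨P⁻, R, (IsSelfAdjoint.of_nonneg (CFC.negPart_nonneg P)).star_eq, hR, ?_, ?_⟩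
  · have h1 : P * P⁻ = (P⁺ - P⁻) * P⁻ := by rw [CFC.posPart_sub_negPart P hP]
    rw [h1, sub_mul, CFC.posPart_mul_negPart, zero_sub]
  · intro h
    rw [← CFC.posPart_sub_negPart P hP, h, sub_zero]
    exact CFC.posPart_nonneg P

theorem exists_star_mul (P : D) (hP : 0 ≤ P) : ∃ R : D, P = star R * R ∧ star P = P :=
  let ⟨R, hR⟩ := CStarAlgebra.nonneg_iff_eq_star_mul_self.1 hP
  ⟨R, hR, (IsSelfAdjoint.of_nonneg hP).star_eq⟩

end abs

section criterion

variable {A : Type*} [NonUnitalCStarAlgebra A] [PartialOrder A] [StarOrderedRing A]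
variable {n : Type*} [Fintype n]

/-- A self-adjoint matrix over a C*-algebra is positive as soon as its quadratic form is. -/
theorem nonneg_of_quad (P : CStarMatrix n n A) (hP : IsSelfAdjoint P)
    (h : ∀ b : n → A, 0 ≤ ∑ i, ∑ j, star (b i) * P i j * b j) : 0 ≤ P := by
  classical
  obtain ⟨N, R, hNsa, hR, hPN, hfin⟩ := exists_negPart P hP
  have key : ∀ l, ∑ i, ∑ j, star (N i l) * P i j * N j l = (star N * (P * N)) l l := by
    intro l
    rw [CStarMatrix.mul_apply]
    apply Finset.sum_congr rfl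
    intro i _
    rw [CStarMatrix.mul_apply, Finset.mul_sum]
    apply Finset.sum_congr rfl
    intro j _
    rw [CStarMatrix.star_apply, mul_assoc]
  have key2 : star N * (P * N) = - (star (R * N) * (R * N)) := by
    rw [hPN, star_mul, mul_neg, neg_inj]
    rw [mul_assoc (star N) (star R), ← mul_assoc (star R) R N, ← hR]
  have key3 : ∀ l, ∑ k, star ((R * N) k l) * (R * N) k l = 0 := by
    intro l
    have h1 := h (fun i => N i l)
    rw [key l, key2] at h1
    have h2 : (-(star (R * N) * (R * N))) l l = - ∑ k, star ((R * N) k l) * (R * N) k l := by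
      rw [CStarMatrix.neg_apply, CStarMatrix.mul_apply]
      rfl
    rw [h2] at h1
    apply le_antisymm
    · exact neg_nonneg.1 h1
    · exact Finset.sum_nonneg fun k _ => star_mul_self_nonneg _
  have hRN : R * N = 0 := by
    ext k l
    have h1 := (Finset.sum_eq_zero_iff_of_nonneg
      (fun k _ => star_mul_self_nonneg ((R * N) k l))).1 (key3 l) k (Finset.mem_univ k)
    exact CStarRing.star_mul_self_eq_zero_iff _ |>.1 h1
  have hNN : star N * N = 0 := by
    rw [hNsa]
    conv_lhs => rw [hR]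
    rw [mul_assoc, ← hR, hRN, mul_zero]
  exact hfin (CStarRing.star_mul_self_eq_zero_iff _ |>.1 hNN)

end criterion

section cp

variable {A B : Type*} [NonUnitalCStarAlgebra A] [PartialOrder A] [StarOrderedRing A]
  [NonUnitalCStarAlgebra B] [PartialOrder B] [StarOrderedRing B]

/-- The algebraic form of complete positivity. -/
def CPalg (φ : A →ₗ[ℂ] B) : Prop :=
  ∀ (k : ℕ) (a : Fin k → A) (b : Fin k → B),
    0 ≤ ∑ i, ∑ j, star (b i) * φ (star (a i) * a j) * b j

theorem sum3 {M : Type*} [AddCommMonoid M] {k : ℕ} (f : Fin k → Fin k → Fin k → M) :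
    ∑ i, ∑ j, ∑ l, f i j l = ∑ l, ∑ i, ∑ j, f i j l := by
  calc ∑ i, ∑ j, ∑ l, f i j l = ∑ i, ∑ l, ∑ j, f i j l :=
        Finset.sum_congr rfl fun i _ => Finset.sum_comm
    _ = _ := Finset.sum_comm

/-- A star preserving linear map with the algebraic property is completely positive. -/
def toCP (φ : A →ₗ[ℂ] B) (hstar : ∀ a, φ (star a) = star (φ a)) (h : CPalg φ) : A →CP B where
  toLinearMap := φ
  map_cstarMatrix_nonneg' k M hM := by
    obtain ⟨N, hN, hMs⟩ := exists_star_mul M hM
    apply nonneg_of_quad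
    · rw [isSelfAdjoint_iff]
      ext i j
      have h1 : (star M) i j = M i j := by rw [hMs]
      rw [CStarMatrix.star_apply] at h1
      rw [CStarMatrix.star_apply, CStarMatrix.map_apply, CStarMatrix.map_apply, ← h1, hstar]
    · intro b
      have h1 : ∀ i j, φ (M i j) = ∑ l, φ (star (N l i) * N l j) := by
        intro i j
        rw [← map_sum]
        congr 1
        rw [hN, CStarMatrix.mul_apply]
        rfl
      have h2 : ∑ i, ∑ j, star (b i) * (M.map φ) i j * b j =
          ∑ l, ∑ i, ∑ j, star (b i) * φ (star (N l i) * N l j) * b j := by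
        rw [← sum3]
        apply Finset.sum_congr rfl
        intro i _
        apply Finset.sum_congr rfl
        intro j _
        rw [CStarMatrix.map_apply, h1 i j, Finset.mul_sum, Finset.sum_mul]
      rw [h2]
      exact Finset.sum_nonneg fun l _ => h k (fun i => N l i) b

theorem toCP_apply (φ : A →ₗ[ℂ] B) (hstar : ∀ a, φ (star a) = star (φ a)) (h : CPalg φ) (a : A) :
    toCP φ hstar h a = φ a := rfl

end cp

section norm

variable {A B : Type*} [CStarAlgebra A] [PartialOrder A] [StarOrderedRing A]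
  [CStarAlgebra B] [PartialOrder B] [StarOrderedRing B]

theorem norm_le_of_CPalg (φ : A →ₗ[ℂ] B) (hstar : ∀ a, φ (star a) = star (φ a)) (h : CPalg φ)
    (h1 : φ 1 = 1) (x : A) : ‖φ x‖ ≤ ‖x‖ := by
  have hpos : ∀ y : A, 0 ≤ y → 0 ≤ φ y := by
    intro y hy
    obtain ⟨R, hR, -⟩ := exists_star_mul y hy
    have := h 1 (fun _ => R) (fun _ => 1)
    simpa [← hR] using this
  have hks : star (φ x) * φ x ≤ φ (star x * x) := by
    have h2 := h 2 ![1, x] ![-φ x, 1]
    simp only [Fin.sum_univ_two, Matrix.cons_val_zero, Matrix.cons_val_one, star_one, one_mul,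
      mul_one, h1, star_neg, neg_mul, mul_neg, neg_neg, hstar] at h2
    rw [← sub_nonneg]
    convert h2 using 1
    abel
  have h0 : 0 ≤ star (φ x) * φ x := star_mul_self_nonneg _
  have hn1 : ‖star (φ x) * φ x‖ ≤ ‖φ (star x * x)‖ :=
    CStarAlgebra.norm_le_norm_of_nonneg_of_le h0 hks
  have hn2 : ‖φ (star x * x)‖ ≤ ‖star x * x‖ := by
    let f : A →ₚ[ℂ] B := PositiveLinearMap.mk₀ φ hpos
    have h3 := f.norm_apply_le_of_nonneg (star x * x) (star_mul_self_nonneg _)
    have h4 : f 1 = 1 := h1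
    rw [h4] at h3
    refine h3.trans ?_
    rcases subsingleton_or_nontrivial B with hB | hB
    · rw [Subsingleton.elim (1 : B) 0, norm_zero, zero_mul]
      exact norm_nonneg _
    · rw [CStarRing.norm_one, one_mul]
  rw [CStarRing.norm_star_mul_self] at hn1
  rw [CStarRing.norm_star_mul_self] at hn2
  have h5 : ‖φ x‖ * ‖φ x‖ ≤ ‖x‖ * ‖x‖ := hn1.trans hn2
  exact (mul_self_le_mul_self_iff (norm_nonneg _) (norm_nonneg _)).2 h5

end norm

end Pool.Agent.Helper757.TI
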