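import Mathlib

set_option autoImplicit false

open scoped CStarAlgebra ComplexOrder

noncomputable section

namespace Pool.Agent.Helper757.TI

/-- **Nuclearity** of a C*-algebra, in the form of the completely positive approximation property:
the identity map is a point-norm limit of compositions of completely positive contractions
`A → Mₙ(ℂ) → A`. The order on `A` is its canonical order (`x` is positive when it is
self-adjoint with spectrum in `[0, ∞)`), and `A →CP B` is Mathlib's type of completely positive
linear maps. -/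
def IsNuclear (A : Type) [NonUnitalCStarAlgebra A] : Prop :=
  letI := CStarAlgebra.spectralOrder A
  letI := CStarAlgebra.spectralOrderedRing A
  ∀ (F : Finset A) (ε : ℝ), 0 < ε →
    ∃ (n : Type) (_ : Fintype n) (φ : A →CP CStarMatrix n n ℂ) (ψ : CStarMatrix n n ℂ →CP A),
      (∀ a, ‖φ a‖ ≤ ‖a‖) ∧ (∀ T, ‖ψ T‖ ≤ ‖T‖) ∧ ∀ a ∈ F, ‖ψ (φ a) - a‖ < ε

/-- **Stable finiteness** of a unital C*-algebra: every isometry in every matrix algebra over `A`
is unitary. -/
def IsStablyFinite (A : Type) [CStarAlgebra A] : Prop :=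
  ∀ (n : ℕ) (v : Matrix (Fin n) (Fin n) A), star v * v = 1 → v * star v = 1

/-- A *-representation of a C*-algebra `B` on a Hilbert space `K`. -/
def Rep (B K : Type) [NonUnitalCStarAlgebra B] [NormedAddCommGroup K] [InnerProductSpace ℂ K]
    [CompleteSpace K] : Type :=
  B →⋆ₙₐ[ℂ] (K →L[ℂ] K)

/-- The operator `π b` on `K`. -/
def Rep.op {B K : Type} [NonUnitalCStarAlgebra B] [NormedAddCommGroup K] [InnerProductSpace ℂ K]
    [CompleteSpace K] (π : Rep B K) (b : B) : K →L[ℂ] K :=
  let π' : B →⋆ₙₐ[ℂ] (K →L[ℂ] K) := π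
  π' b

/-- A representation is irreducible if it is nonzero and has no non-trivial closed invariant
subspace. -/
def Rep.IsIrreducible {B K : Type} [NonUnitalCStarAlgebra B] [NormedAddCommGroup K]
    [InnerProductSpace ℂ K] [CompleteSpace K] (π : Rep B K) : Prop :=
  (∃ b, π.op b ≠ 0) ∧
    ∀ E : Submodule ℂ K, IsClosed (E : Set K) → (∀ b, ∀ x ∈ E, π.op b x ∈ E) → E = ⊥ ∨ E = ⊤

/-- A C*-algebra is **type I** if the image of every irreducible representation contains all the
compact operators. -/
def IsTypeI (B : Type) [NonUnitalCStarAlgebra B] : Prop :=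
  ∀ (K : Type) [NormedAddCommGroup K] [InnerProductSpace ℂ K] [CompleteSpace K]
    (π : Rep B K), π.IsIrreducible →
      ∀ T : K →L[ℂ] K, IsCompactOperator T → ∃ b, π.op b = T

/-- **Local approximability by type I C*-algebras**: every finite subset is, up to any `ε`,
contained in a type I C*-subalgebra (a norm closed *-subalgebra). -/
def IsLocallyTypeI (A : Type) [NonUnitalCStarAlgebra A] : Prop :=
  ∀ (F : Finset A) (ε : ℝ), 0 < ε →
    ∃ (B : NonUnitalStarSubalgebra ℂ A) (_ : IsClosed (B : Set A)),
      IsTypeI B ∧ ∀ x ∈ F, ∃ b ∈ B, ‖x - b‖ < ε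

end Pool.Agent.Helper757.TI
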