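import Pool.Agent.Helper757.TI.Approx
import Pool.Agent.Helper757.TI.Defs

set_option autoImplicit false
set_option linter.unusedSectionVars false

open scoped InnerProductSpace ComplexOrder CStarAlgebra Topology unitInterval
open Filter

noncomputable section

namespace Pool.Agent.Helper757.TI

section general

variable (D : Type) [CStarAlgebra D]

/-- The unitised cone over `D`: continuous functions `f : [0,1] → D` with `f 0` scalar. -/
def Cone : StarSubalgebra ℂ C(I, D) where
  carrier := {f | ∃ z : ℂ, f 0 = z • (1 : D)}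
  mul_mem' := by
    rintro f g ⟨z, hz⟩ ⟨w, hw⟩
    refine ⟨z * w, ?_⟩
    rw [ContinuousMap.mul_apply, hz, hw, smul_mul_smul_comm, mul_one]
  one_mem' := ⟨1, by simp⟩
  add_mem' := by
    rintro f g ⟨z, hz⟩ ⟨w, hw⟩
    refine ⟨z + w, ?_⟩
    rw [ContinuousMap.add_apply, hz, hw, add_smul]
  zero_mem' := ⟨0, by simp⟩
  algebraMap_mem' := by
    intro r
    refine ⟨r, ?_⟩
    show algebraMap ℂ D r = _
    rw [Algebra.algebraMap_eq_smul_one]
  star_mem' := by
    rintro f ⟨z, hz⟩
    refine ⟨star z, ?_⟩
    rw [ContinuousMap.star_apply, hz, star_smul, star_one]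

theorem mem_Cone {f : C(I, D)} : f ∈ Cone D ↔ ∃ z : ℂ, f 0 = z • (1 : D) := Iff.rfl

theorem isClosed_scalars : IsClosed {x : D | ∃ z : ℂ, x = z • (1 : D)} := by
  have : {x : D | ∃ z : ℂ, x = z • (1 : D)} = (Submodule.span ℂ {(1 : D)} : Set D) := by
    ext x
    rw [SetLike.mem_coe, Submodule.mem_span_singleton]
    constructor
    · rintro ⟨z, hz⟩; exact ⟨z, hz.symm⟩
    · rintro ⟨z, hz⟩; exact ⟨z, hz.symm⟩
  rw [this]
  exact Submodule.closed_of_finiteDimensional _

instance Cone_isClosed : IsClosed (Cone D : Set C(I, D)) :=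
  (isClosed_scalars D).preimage (continuous_eval_const (0 : I))

/-- The algebra as a type. -/
def CA : Type := Cone D

instance : CStarAlgebra (CA D) := inferInstanceAs (CStarAlgebra (Cone D))

variable {D}

/-- Evaluation at a point. -/
def ev (t : I) : CA D →⋆ₐ[ℂ] D where
  toFun f := f.1 t
  map_one' := rfl
  map_mul' _ _ := rfl
  map_zero' := rfl
  map_add' _ _ := rfl
  commutes' _ := rfl
  map_star' _ := rfl

theorem ev_apply (t : I) (f : CA D) : ev t f = f.1 t := rfl

theorem ev_zero (f : CA D) : ∃ z : ℂ, ev 0 f = z • (1 : D) := f.2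

theorem CA_ext {f g : CA D} (h : ∀ t, ev t f = ev t g) : f = g :=
  Subtype.ext (ContinuousMap.ext h)

/-- Constructor. -/
def mkCA (f : C(I, D)) (h : ∃ z : ℂ, f 0 = z • (1 : D)) : CA D := ⟨f, h⟩

theorem ev_mkCA (f : C(I, D)) (h : ∃ z : ℂ, f 0 = z • (1 : D)) (t : I) :
    ev t (mkCA f h) = f t := rfl

theorem norm_ev_le (t : I) (f : CA D) : ‖ev t f‖ ≤ ‖f‖ :=
  (show C(I, D) from f.1).norm_coe_le_norm t

theorem norm_CA_le {f : CA D} {C : ℝ} (hC : 0 ≤ C) (h : ∀ t, ‖ev t f‖ ≤ C) : ‖f‖ ≤ C :=
  (ContinuousMap.norm_le f.1 hC).2 h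

theorem continuous_ev (f : CA D) : Continuous fun t : I => ev t f :=
  (show C(I, D) from f.1).continuous

theorem CA_separable [TopologicalSpace.SeparableSpace D] :
    TopologicalSpace.SeparableSpace (CA D) := by
  have : SecondCountableTopology D := UniformSpace.secondCountable_of_separable D
  have h2 : TopologicalSpace.IsSeparable (Cone D : Set C(I, D)) :=
    TopologicalSpace.IsSeparable.of_separableSpace _
  exact h2.separableSpace

/-! ### Stable finiteness -/

theorem CA_stablyFinite [Nontrivial D] : IsStablyFinite (CA D) := by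
  intro n v hv
  -- the defect projection
  set p : Matrix (Fin n) (Fin n) (CA D) := 1 - v * star v with hp
  have hpp : p * p = p := by
    have h1 : v * star v * (v * star v) = v * star v := by
      rw [mul_assoc, ← mul_assoc (star v) v, hv, one_mul]
    rw [hp, sub_mul, mul_sub, mul_sub, h1, mul_one, one_mul, mul_one, sub_self, sub_zero]
  let g : I → ℝ := fun t => ∑ i, ∑ j, ‖ev t (p i j)‖
  have hg_cont : Continuous g := by
    apply continuous_finsetSum
    intro i _
    apply continuous_finsetSum
    intro j _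
    exact (continuous_ev (p i j)).norm
  have hg0 : ∀ t, 0 ≤ g t := fun t => Finset.sum_nonneg fun i _ => Finset.sum_nonneg fun j _ =>
    norm_nonneg _
  have hgg : ∀ t, g t ≤ g t * g t := by
    intro t
    have h1 : ∀ i j, ‖ev t (p i j)‖ ≤ ∑ k, ‖ev t (p i k)‖ * ‖ev t (p k j)‖ := by
      intro i j
      have h2 : ev t (p i j) = ∑ k, ev t (p i k) * ev t (p k j) := by
        have h3 : p i j = ∑ k, p i k * p k j := by
          conv_lhs => rw [← hpp]
          rw [Matrix.mul_apply]
        conv_lhs => rw [h3]
        rw [map_sum]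
        simp_rw [map_mul]
      rw [h2]
      refine (norm_sum_le _ _).trans ?_
      exact Finset.sum_le_sum fun k _ => norm_mul_le _ _
    calc g t ≤ ∑ i, ∑ j, ∑ k, ‖ev t (p i k)‖ * ‖ev t (p k j)‖ :=
          Finset.sum_le_sum fun i _ => Finset.sum_le_sum fun j _ => h1 i j
      _ = ∑ i, ∑ k, ∑ j, ‖ev t (p i k)‖ * ‖ev t (p k j)‖ :=
          Finset.sum_congr rfl fun i _ => Finset.sum_comm
      _ = ∑ i, ∑ k, ‖ev t (p i k)‖ * ∑ j, ‖ev t (p k j)‖ := by
          simp_rw [Finset.mul_sum]
      _ ≤ ∑ i, ∑ k, ‖ev t (p i k)‖ * g t := by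
          apply Finset.sum_le_sum
          intro i _
          apply Finset.sum_le_sum
          intro k _
          apply mul_le_mul_of_nonneg_left _ (norm_nonneg _)
          exact Finset.single_le_sum (f := fun k => ∑ j, ‖ev t (p k j)‖)
            (fun k _ => Finset.sum_nonneg fun j _ => norm_nonneg _) (Finset.mem_univ k)
      _ = g t * g t := by
          simp_rw [← Finset.sum_mul]
          rfl
  have hgz : g 0 = 0 := by
    -- at `0` everything is scalar
    choose! z hz using fun i j => ev_zero (v i j)
    let Λ : Matrix (Fin n) (Fin n) ℂ := z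
    have hinj : ∀ c : ℂ, c • (1 : D) = 0 → c = 0 := by
      intro c hc
      rcases smul_eq_zero.1 hc with h | h
      · exact h
      · exact absurd h one_ne_zero
    have hone : ∀ i j, ev 0 ((1 : Matrix (Fin n) (Fin n) (CA D)) i j) =
        ((1 : Matrix (Fin n) (Fin n) ℂ) i j) • (1 : D) := by
      intro i j
      by_cases hij : i = j
      · subst hij
        rw [Matrix.one_apply_eq, Matrix.one_apply_eq, map_one, one_smul]
      · rw [Matrix.one_apply_ne hij, Matrix.one_apply_ne hij, map_zero, zero_smul]
    have h1 : star Λ * Λ = 1 := by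
      ext i j
      have h2 : ev 0 ((star v * v) i j) = ev 0 ((1 : Matrix (Fin n) (Fin n) (CA D)) i j) := by
        rw [hv]
      rw [Matrix.mul_apply, map_sum, hone] at h2
      simp_rw [map_mul] at h2
      have h3 : ∀ k, ev 0 (star v i k) * ev 0 (v k j) = (star (Λ k i) * Λ k j) • (1 : D) := by
        intro k
        rw [Matrix.star_apply, map_star, hz, hz, star_smul, star_one,
          smul_mul_smul_comm, mul_one]
      simp_rw [h3] at h2
      rw [← Finset.sum_smul] at h2
      rw [Matrix.mul_apply]
      simp_rw [Matrix.star_apply]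
      rw [← sub_eq_zero]
      apply hinj
      rw [sub_smul, h2, sub_self]
    have h2 : Λ * star Λ = 1 := by
      exact mul_eq_one_comm.1 h1
    apply Finset.sum_eq_zero
    intro i _
    apply Finset.sum_eq_zero
    intro j _
    rw [norm_eq_zero, hp, Matrix.sub_apply, map_sub, Matrix.mul_apply, map_sum, hone]
    simp_rw [map_mul]
    have h3 : ∀ k, ev 0 (v i k) * ev 0 (star v k j) = (Λ i k * star (Λ j k)) • (1 : D) := by
      intro k
      rw [Matrix.star_apply, map_star, hz, hz, star_smul, star_one,
        smul_mul_smul_comm, mul_one]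
    simp_rw [h3]
    rw [← Finset.sum_smul]
    have h4 : ∑ k, Λ i k * star (Λ j k) = (1 : Matrix (Fin n) (Fin n) ℂ) i j := by
      rw [← h2, Matrix.mul_apply]
      simp_rw [Matrix.star_apply]
    rw [h4, sub_self]
  have hgall : ∀ t, g t = 0 := by
    have hclopen : IsClopen {t : I | g t < 1} := by
      constructor
      · have : {t : I | g t < 1} = {t : I | g t ≤ 0} := by
          ext t
          simp only [Set.mem_ofPred_eq]
          constructor
          · intro ht
            nlinarith [hgg t, hg0 t]
          · intro ht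
            linarith
        rw [this]
        exact isClosed_le hg_cont continuous_const
      · exact isOpen_lt hg_cont continuous_const
    have huniv := hclopen.eq_univ ⟨0, by simp only [Set.mem_ofPred_eq, hgz]; norm_num⟩
    intro t
    have ht : t ∈ {t : I | g t < 1} := by rw [huniv]; exact Set.mem_univ t
    simp only [Set.mem_ofPred_eq] at ht
    nlinarith [hgg t, hg0 t]
  have hp0 : p = 0 := by
    refine Matrix.ext fun i j => CA_ext fun t => ?_
    have h1 := hgall t
    have h2 := (Finset.sum_eq_zero_iff_of_nonneg (fun i _ => Finset.sum_nonneg fun j _ =>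
      norm_nonneg _)).1 h1 i (Finset.mem_univ i)
    have h3 := (Finset.sum_eq_zero_iff_of_nonneg (fun j _ => norm_nonneg _)).1 h2 j
      (Finset.mem_univ j)
    rw [norm_eq_zero.1 h3, Matrix.zero_apply, map_zero]
  exact (sub_eq_zero.1 hp0).symm

end general

end Pool.Agent.Helper757.TI
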