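import Mathlib

set_option autoImplicit false

open scoped InnerProductSpace ComplexOrder

noncomputable section

namespace Pool.Agent.Helper757.TI

/-- The Hilbert space `ℓ²(ℕ)`. -/
abbrev H : Type := lp (fun _ : ℕ => ℂ) 2

/-- The bounded operators on `ℓ²(ℕ)`. -/
abbrev BH : Type := H →L[ℂ] H

theorem toNat_inj' {c d : Bool} (h : c.toNat = d.toNat) : c = d := by
  cases c <;> cases d <;> simp_all

/-- The standard Hilbert basis. -/
def bas : HilbertBasis ℕ ℂ H := HilbertBasis.ofRepr (LinearIsometryEquiv.refl ℂ _)

/-- The standard unit vectors. -/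
def e (n : ℕ) : H := lp.single 2 n (1 : ℂ)

theorem bas_apply (n : ℕ) : bas n = e n := by
  have := bas.repr_symm_single n
  rw [← this]
  rfl

theorem e_orthonormal : Orthonormal ℂ e := by
  have := bas.orthonormal
  have h : (bas : ℕ → H) = e := funext bas_apply
  rwa [h] at this

theorem e_inner (m n : ℕ) : ⟪e m, e n⟫_ℂ = if m = n then 1 else 0 := by
  exact (orthonormal_iff_ite.1 e_orthonormal) m n

theorem ext_e {E : Type*} [NormedAddCommGroup E] [NormedSpace ℂ E] {T T' : H →L[ℂ] E}
    (h : ∀ n, T (e n) = T' (e n)) : T = T' := by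
  have hd : Dense (Submodule.span ℂ (Set.range e) : Set H) := by
    have := bas.dense_span
    have h2 : (bas : ℕ → H) = e := funext bas_apply
    rw [h2] at this
    exact Submodule.dense_iff_topologicalClosure_eq_top.2 this
  apply ContinuousLinearMap.ext_on hd
  rintro _ ⟨n, rfl⟩
  exact h n

theorem ext_inner_e {x y : H} (h : ∀ n, ⟪e n, x⟫_ℂ = ⟪e n, y⟫_ℂ) : x = y := by
  have hd : Dense (Submodule.span ℂ (Set.range e) : Set H) := by
    have := bas.dense_span
    have h2 : (bas : ℕ → H) = e := funext bas_apply
    rw [h2] at this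
    exact Submodule.dense_iff_topologicalClosure_eq_top.2 this
  have h1 : innerSL ℂ x = innerSL ℂ y := by
    apply ext_e
    intro n
    simp only [innerSL_apply_apply]
    rw [← inner_conj_symm, h n, inner_conj_symm]
  have h2 : (InnerProductSpace.toDual ℂ H) x = (InnerProductSpace.toDual ℂ H) y := by
    exact h1
  exact (InnerProductSpace.toDual ℂ H).injective h2

theorem sub_inj (c : Bool) : Function.Injective (fun n : ℕ => 2 * n + c.toNat) := by
  intro m n h
  simp only at h
  omega

/-- The isometries `e_n ↦ e_{2n}` and `e_n ↦ e_{2n+1}`. -/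
def Siso (c : Bool) : H →ₗᵢ[ℂ] H :=
  (e_orthonormal.comp _ (sub_inj c)).orthogonalFamily.linearIsometry

/-- The isometries as operators. -/
def S (c : Bool) : BH := (Siso c).toContinuousLinearMap

theorem S_e (c : Bool) (n : ℕ) : S c (e n) = e (2 * n + c.toNat) := by
  show Siso c (e n) = _
  rw [Siso, e, OrthogonalFamily.linearIsometry_apply_single]
  simp

theorem S_star_S (c : Bool) : star (S c) * S c = 1 := by
  rw [ContinuousLinearMap.star_eq_adjoint]
  apply ContinuousLinearMap.norm_map_iff_adjoint_comp_self (S c) |>.1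
  intro x
  exact (Siso c).norm_map x

theorem S_star_e (c : Bool) (k : ℕ) :
    star (S c) (e k) = if k % 2 = c.toNat then e (k / 2) else 0 := by
  apply ext_inner_e
  intro n
  rw [ContinuousLinearMap.star_eq_adjoint, ContinuousLinearMap.adjoint_inner_right, S_e, e_inner]
  have hc : c.toNat < 2 := Bool.toNat_lt c
  split_ifs with h1 h2 h2
  · rw [e_inner, if_pos]; omega
  · exfalso; omega
  · rw [e_inner, if_neg]; omega
  · rw [inner_zero_right]

theorem S_star_S_ne {c d : Bool} (h : c ≠ d) : star (S c) * S d = 0 := by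
  apply ext_e
  intro n
  show star (S c) (S d (e n)) = 0
  rw [S_e, S_star_e, if_neg]
  have : c.toNat ≠ d.toNat := fun h' => h (toNat_inj' h')
  have hc : c.toNat < 2 := Bool.toNat_lt c
  have hd : d.toNat < 2 := Bool.toNat_lt d
  omega

theorem sum_S : ∑ c : Bool, S c * star (S c) = 1 := by
  apply ext_e
  intro n
  rw [Fintype.sum_bool]
  show S true (star (S true) (e n)) + S false (star (S false) (e n)) = e n
  rw [S_star_e, S_star_e]
  rcases Nat.mod_two_eq_zero_or_one n with h | h
  · rw [h]
    simp only [Bool.toNat_true, Bool.toNat_false, zero_ne_one, if_false, if_true, map_zero,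
      zero_add]
    rw [S_e]
    congr 1
    simp
    omega
  · rw [h]
    simp only [Bool.toNat_true, Bool.toNat_false, one_ne_zero, if_false, if_true, map_zero,
      add_zero]
    rw [S_e]
    congr 1
    simp
    omega

/-- The word operators. -/
def sw : List Bool → BH
  | [] => 1
  | c :: w => S c * sw w

/-- The word vectors: `v w = s_w e_1`. -/
def vw : List Bool → H
  | [] => e 1
  | c :: w => S c (vw w)

/-- The number of a word. -/
def num : List Bool → ℕ
  | [] => 1
  | c :: w => 2 * num w + c.toNat

theorem num_pos (w : List Bool) : 1 ≤ num w := by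
  induction w with
  | nil => exact le_refl _
  | cons c w ih => simp only [num]; omega

theorem num_inj : ∀ {a b : List Bool}, num a = num b → a = b
  | [], [], _ => rfl
  | [], c :: b, h => by
    have := num_pos b
    simp only [num] at h
    omega
  | c :: a, [], h => by
    have := num_pos a
    simp only [num] at h
    omega
  | c :: a, d :: b, h => by
    simp only [num] at h
    have hc : c.toNat < 2 := Bool.toNat_lt c
    have hd : d.toNat < 2 := Bool.toNat_lt d
    have h1 : c.toNat = d.toNat := by omega
    have h2 : num a = num b := by omega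
    rw [num_inj h2, toNat_inj' h1]

theorem vw_eq (w : List Bool) : vw w = e (num w) := by
  induction w with
  | nil => rfl
  | cons c w ih => rw [vw, ih, S_e, num]

theorem vw_inner (a b : List Bool) : ⟪vw a, vw b⟫_ℂ = if a = b then 1 else 0 := by
  rw [vw_eq, vw_eq, e_inner]
  by_cases h : a = b
  · rw [if_pos h, if_pos (by rw [h])]
  · rw [if_neg h, if_neg (fun h' => h (num_inj h'))]

/-- The words of a given length. -/
def words : ℕ → Finset (List Bool)
  | 0 => {[]}
  | n + 1 => (Finset.univ ×ˢ words n).map
      ⟨fun p : Bool × List Bool => p.1 :: p.2, fun p q h => by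
        simp only [List.cons.injEq] at h
        exact Prod.ext h.1 h.2⟩

theorem mem_words {n : ℕ} {w : List Bool} : w ∈ words n ↔ w.length = n := by
  induction n generalizing w with
  | zero => simp [words, List.length_eq_zero_iff]
  | succ n ih =>
    rw [words, Finset.mem_map]
    constructor
    · rintro ⟨p, hp, rfl⟩
      rw [Finset.mem_product] at hp
      show (p.1 :: p.2).length = n + 1
      rw [List.length_cons, ih.1 hp.2]
    · intro h
      cases w with
      | nil => simp at h
      | cons c w =>
        refine ⟨(c, w), ?_, rfl⟩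
        rw [Finset.mem_product]
        refine ⟨Finset.mem_univ _, ih.2 ?_⟩
        simpa using h

theorem sum_words_succ {M : Type*} [AddCommMonoid M] (n : ℕ) (F : List Bool → M) :
    ∑ w ∈ words (n + 1), F w = ∑ c : Bool, ∑ w ∈ words n, F (c :: w) := by
  rw [words, Finset.sum_map, Finset.sum_product]
  rfl

theorem sum_words_sw (n : ℕ) : ∑ w ∈ words n, sw w * star (sw w) = 1 := by
  induction n with
  | zero => simp [words, sw]
  | succ n ih =>
    rw [sum_words_succ]
    have : ∀ c, ∑ w ∈ words n, sw (c :: w) * star (sw (c :: w)) = S c * star (S c) := by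
      intro c
      have h1 : ∀ w, sw (c :: w) * star (sw (c :: w)) = S c * (sw w * star (sw w)) * star (S c) := by
        intro w
        rw [sw, star_mul]
        simp only [mul_assoc]
      simp_rw [h1]
      rw [← Finset.sum_mul, ← Finset.mul_sum, ih, mul_one]
    simp_rw [this]
    exact sum_S

/-- The basic averaging maps. -/
def Th (m n : ℕ) (x : BH) : BH :=
  ∑ a ∈ words m, ∑ b ∈ words n, ⟪vw a, x (vw b)⟫_ℂ • (sw a * star (sw b))

theorem Th_left (m n : ℕ) (c : Bool) (x : BH) : Th (m + 1) n (S c * x) = S c * Th m n x := by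
  rw [Th, sum_words_succ]
  have h1 : ∀ d : Bool, d ≠ c → (∑ w ∈ words m, ∑ b ∈ words n,
      ⟪vw (d :: w), (S c * x) (vw b)⟫_ℂ • (sw (d :: w) * star (sw b))) = 0 := by
    intro d hd
    apply Finset.sum_eq_zero
    intro w _
    apply Finset.sum_eq_zero
    intro b _
    have : ⟪vw (d :: w), (S c * x) (vw b)⟫_ℂ = 0 := by
      show ⟪S d (vw w), S c (x (vw b))⟫_ℂ = 0
      rw [← ContinuousLinearMap.adjoint_inner_right, ← ContinuousLinearMap.star_eq_adjoint]
      have h2 : star (S d) (S c (x (vw b))) = (star (S d) * S c) (x (vw b)) := rfl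
      rw [h2, S_star_S_ne hd, zero_apply, inner_zero_right]
    rw [this, zero_smul]
  rw [Finset.sum_eq_single c (fun d _ hd => h1 d hd) (fun h => absurd (Finset.mem_univ _) h)]
  rw [Th, Finset.mul_sum]
  apply Finset.sum_congr rfl
  intro w _
  rw [Finset.mul_sum]
  apply Finset.sum_congr rfl
  intro b _
  have : ⟪vw (c :: w), (S c * x) (vw b)⟫_ℂ = ⟪vw w, x (vw b)⟫_ℂ := by
    show ⟪S c (vw w), S c (x (vw b))⟫_ℂ = _
    rw [← ContinuousLinearMap.adjoint_inner_right, ← ContinuousLinearMap.star_eq_adjoint]
    have h2 : star (S c) (S c (x (vw b))) = (star (S c) * S c) (x (vw b)) := rfl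
    rw [h2, S_star_S]
    rfl
  rw [this, sw, mul_smul_comm, mul_assoc]

theorem Th_right (m n : ℕ) (c : Bool) (x : BH) :
    Th m (n + 1) (x * star (S c)) = Th m n x * star (S c) := by
  rw [Th, Th, Finset.sum_mul]
  apply Finset.sum_congr rfl
  intro a _
  rw [sum_words_succ]
  have h1 : ∀ d : Bool, d ≠ c → (∑ b ∈ words n,
      ⟪vw a, (x * star (S c)) (vw (d :: b))⟫_ℂ • (sw a * star (sw (d :: b)))) = 0 := by
    intro d hd
    apply Finset.sum_eq_zero
    intro b _
    have : (x * star (S c)) (vw (d :: b)) = 0 := by
      show x ((star (S c) * S d) (vw b)) = 0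
      rw [S_star_S_ne (Ne.symm hd), zero_apply, map_zero]
    rw [this, inner_zero_right, zero_smul]
  rw [Finset.sum_eq_single c (fun d _ hd => h1 d hd) (fun h => absurd (Finset.mem_univ _) h)]
  rw [Finset.sum_mul]
  apply Finset.sum_congr rfl
  intro b _
  have : (x * star (S c)) (vw (c :: b)) = x (vw b) := by
    show x ((star (S c) * S c) (vw b)) = _
    rw [S_star_S]
    rfl
  rw [this, sw, star_mul, smul_mul_assoc, mul_assoc]

theorem Th_sw (μ ν : List Bool) (m n : ℕ) (x : BH) :
    Th (m + μ.length) (n + ν.length) (sw μ * x * star (sw ν)) =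
      sw μ * Th m n x * star (sw ν) := by
  have hL : ∀ (μ : List Bool) (n : ℕ) (x : BH), Th (m + μ.length) n (sw μ * x) = sw μ * Th m n x := by
    intro μ
    induction μ with
    | nil => intro n x; simp [sw]
    | cons c μ ih =>
      intro n x
      rw [List.length_cons, ← add_assoc, sw, mul_assoc, Th_left, ih, mul_assoc]
  have hR : ∀ (ν : List Bool) (m : ℕ) (x : BH),
      Th m (n + ν.length) (x * star (sw ν)) = Th m n x * star (sw ν) := by
    intro ν
    induction ν with
    | nil => intro n x; simp [sw]
    | cons c ν ih =>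
      intro n x
      rw [List.length_cons, ← add_assoc, sw, star_mul, ← mul_assoc, Th_right, ih, mul_assoc]
  rw [hR, hL]

theorem Th_one (m n : ℕ) : Th m n 1 = if m = n then 1 else 0 := by
  by_cases h : m = n
  · subst h
    rw [if_pos rfl, Th]
    refine (Finset.sum_congr rfl ?_).trans (sum_words_sw m)
    intro a ha
    rw [Finset.sum_eq_single a]
    · rw [one_apply_eq_self, vw_inner, if_pos rfl, one_smul]
    · intro b _ hb
      rw [one_apply_eq_self, vw_inner, if_neg (Ne.symm hb), zero_smul]
    · intro h
      exact absurd ha h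
  · rw [if_neg h, Th]
    apply Finset.sum_eq_zero
    intro a ha
    apply Finset.sum_eq_zero
    intro b hb
    rw [one_apply_eq_self, vw_inner, if_neg, zero_smul]
    rintro rfl
    exact h ((mem_words.1 ha).symm.trans (mem_words.1 hb))

end Pool.Agent.Helper757.TI
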