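import Pool.Agent.Helper757.TI.Irr

set_option autoImplicit false
set_option linter.unusedSectionVars false

open scoped InnerProductSpace ComplexOrder Topology
open Filter

noncomputable section

namespace Pool.Agent.Helper757.TI

section trace

variable {K : Type} [NormedAddCommGroup K] [InnerProductSpace ℂ K] [FiniteDimensional ℂ K]

theorem hs_symm {ι : Type*} [Fintype ι] [CompleteSpace K] (b : OrthonormalBasis ι ℂ K)
    (T : K →L[ℂ] K) : ∑ i, ‖T (b i)‖ ^ 2 = ∑ i, ‖(star T) (b i)‖ ^ 2 := by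
  have h1 : ∀ i, ‖T (b i)‖ ^ 2 = ∑ j, ‖⟪b j, T (b i)⟫_ℂ‖ ^ 2 := fun i =>
    (b.sum_sq_norm_inner_right _).symm
  have h2 : ∀ j, ‖(star T) (b j)‖ ^ 2 = ∑ i, ‖⟪(star T) (b j), b i⟫_ℂ‖ ^ 2 := fun j =>
    (b.sum_sq_norm_inner_left _).symm
  simp_rw [h1, h2]
  rw [Finset.sum_comm]
  apply Finset.sum_congr rfl
  intro j _
  apply Finset.sum_congr rfl
  intro i _
  rw [ContinuousLinearMap.star_eq_adjoint, ContinuousLinearMap.adjoint_inner_left]

theorem trace_contra [CompleteSpace K] [Nontrivial K] (T : Bool → (K →L[ℂ] K))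
    (h1 : ∀ i, ‖star (T i) * T i - 1‖ ≤ 1 / 8)
    (h2 : ‖∑ i, T i * star (T i) - 1‖ ≤ 1 / 8) : False := by
  classical
  let b := stdOrthonormalBasis ℂ K
  set n := Module.finrank ℂ K with hn
  have hn0 : 0 < n := Module.finrank_pos
  have hb : ∀ i, ‖b i‖ = 1 := b.orthonormal.1
  -- a general estimate
  have hest : ∀ (S : K →L[ℂ] K), ‖S - 1‖ ≤ 1 / 8 → ∀ i,
      |(⟪b i, S (b i)⟫_ℂ).re - 1| ≤ 1 / 8 := by
    intro S hS i
    have h3 : ⟪b i, (S - 1) (b i)⟫_ℂ = ⟪b i, S (b i)⟫_ℂ - 1 := by
      rw [sub_apply, inner_sub_right, one_apply_eq_self, inner_self_eq_norm_sq_to_K, hb]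
      simp
    have h4 : |(⟪b i, S (b i)⟫_ℂ).re - 1| ≤ ‖⟪b i, (S - 1) (b i)⟫_ℂ‖ := by
      rw [h3]
      have := Complex.abs_re_le_norm (⟪b i, S (b i)⟫_ℂ - 1)
      rwa [Complex.sub_re, Complex.one_re] at this
    refine h4.trans ((norm_inner_le_norm _ _).trans ?_)
    rw [hb, one_mul]
    refine ((S - 1).le_opNorm _).trans ?_
    rw [hb, mul_one]
    exact hS
  have h3 : ∀ c i, 7 / 8 ≤ ‖T c (b i)‖ ^ 2 := by
    intro c i
    have h4 := hest _ (h1 c) i
    have h5 : (⟪b i, (star (T c) * T c) (b i)⟫_ℂ).re = ‖T c (b i)‖ ^ 2 := by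
      have : (star (T c) * T c) (b i) = ContinuousLinearMap.adjoint (T c) (T c (b i)) := rfl
      rw [this, ContinuousLinearMap.adjoint_inner_right, inner_self_eq_norm_sq_to_K]
      norm_cast
    rw [h5, abs_le] at h4
    linarith [h4.1]
  have h4 : ∀ i, ∑ c, ‖(star (T c)) (b i)‖ ^ 2 ≤ 9 / 8 := by
    intro i
    have h5 := hest _ h2 i
    have h6 : (⟪b i, (∑ c, T c * star (T c)) (b i)⟫_ℂ).re = ∑ c, ‖(star (T c)) (b i)‖ ^ 2 := by
      rw [sum_apply, inner_sum, Complex.re_sum]
      apply Finset.sum_congr rfl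
      intro c _
      have : (T c * star (T c)) (b i) = T c ((star (T c)) (b i)) := rfl
      rw [this, ← ContinuousLinearMap.adjoint_inner_left, ← ContinuousLinearMap.star_eq_adjoint,
        inner_self_eq_norm_sq_to_K]
      norm_cast
    rw [h6, abs_le] at h5
    linarith [h5.2]
  have h5 : ∑ c : Bool, ∑ i, ‖T c (b i)‖ ^ 2 = ∑ i, ∑ c, ‖(star (T c)) (b i)‖ ^ 2 := by
    rw [Finset.sum_comm (s := (Finset.univ : Finset (Fin n)))]
    exact Finset.sum_congr rfl fun c _ => hs_symm b (T c)
  have h6 : ∑ c : Bool, ∑ _i : Fin n, (7 / 8 : ℝ) ≤ ∑ c : Bool, ∑ i, ‖T c (b i)‖ ^ 2 :=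
    Finset.sum_le_sum fun c _ => Finset.sum_le_sum fun i _ => h3 c i
  have h7 : ∑ i, ∑ c, ‖(star (T c)) (b i)‖ ^ 2 ≤ ∑ _i : Fin n, (9 / 8 : ℝ) :=
    Finset.sum_le_sum fun i _ => h4 i
  rw [h5] at h6
  have h8 := h6.trans h7
  simp only [Finset.sum_const, Finset.card_univ, Fintype.card_bool, Fintype.card_fin,
    nsmul_eq_mul] at h8
  have hnR : (0 : ℝ) < n := by exact_mod_cast hn0
  norm_num at h8
  nlinarith

end trace

/-- A type I C*-algebra cannot map densely into a C*-algebra that contains two almost isometries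
whose range projections almost add up to the identity. -/
theorem no_typeI {B : Type} [NonUnitalCStarAlgebra B] (hB : IsTypeI B) {C : Type}
    [CStarAlgebra C] [Nontrivial C] (θ : B →⋆ₙₐ[ℂ] C) (hθ : DenseRange θ) (c : Bool → C)
    (h1 : ∀ i, ‖star (c i) * c i - 1‖ ≤ 1 / 8)
    (h2 : ‖∑ i, c i * star (c i) - 1‖ ≤ 1 / 8) : False := by
  let _ := CStarAlgebra.spectralOrder C
  let _ := CStarAlgebra.spectralOrderedRing C
  obtain ⟨M, hM⟩ := exists_maximal_PI C
  obtain ⟨f, hf⟩ := exists_extreme hM.prop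
  obtain ⟨K, iK1, iK2, iK3, π, ξ, hπ1, hπ2, hπ3⟩ := exists_rep hM.prop hf.1
  have hirr := irred hf π ξ hπ1 hπ2 hπ3
  have hf1 : f 1 = 1 := hf.1.2.2.2.1
  have hξ : ξ ≠ 0 := by
    intro h0
    have := hπ1 1
    rw [hf1, h0, inner_zero_left] at this
    exact zero_ne_one this
  have : Nontrivial K := ⟨⟨ξ, 0, hξ⟩⟩
  have hπc : Continuous π := by
    apply AddMonoidHomClass.continuous_of_bound π 1
    intro x
    rw [one_mul]
    exact norm_rep_le π x
  let σ : Rep B K := (π : C →⋆ₙₐ[ℂ] (K →L[ℂ] K)).comp θ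
  have hσ : ∀ b, σ.op b = π (θ b) := fun b => rfl
  have hσirr : σ.IsIrreducible := by
    constructor
    · by_contra hcon
      push Not at hcon
      have h3 : ∀ x, π x = 0 := by
        have := hθ.induction_on (p := fun x => π x = 0)
        intro x
        exact hθ.induction_on x (isClosed_eq hπc continuous_const) hcon
      have h4 := h3 1
      rw [map_one] at h4
      exact one_ne_zero h4
    · intro E hE hinv
      apply hirr E hE
      intro x y hy
      have hcl : IsClosed {x : C | π x y ∈ E} :=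
        hE.preimage ((ContinuousLinearMap.apply ℂ K y).continuous.comp hπc)
      exact hθ.induction_on (p := fun x => π x y ∈ E) x hcl (fun b => hinv b y hy)
  -- the rank one operator
  let T : K →L[ℂ] K := (innerSL ℂ ξ).smulRight ξ
  have hT : IsCompactOperator T := by
    have h3 : IsCompactOperator (innerSL ℂ ξ : K →L[ℂ] ℂ) :=
      (isCompactOperator_id (E := ℂ)).comp_clm (innerSL ℂ ξ)
    exact h3.clm_comp (ContinuousLinearMap.toSpanSingleton ℂ ξ)
  obtain ⟨b, hb⟩ := hB K σ hσirr T hT
  have hTξ : T ξ ≠ 0 := by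
    have h3 : T ξ = ⟪ξ, ξ⟫_ℂ • ξ := rfl
    rw [h3]
    apply smul_ne_zero _ hξ
    exact inner_self_ne_zero.2 hξ
  -- the ideal of elements acting compactly
  let J : Submodule ℂ C :=
    { carrier := {x | IsCompactOperator (π x)}
      add_mem' := by
        intro x y hx hy
        show IsCompactOperator (π (x + y))
        rw [map_add]
        exact IsCompactOperator.add hx hy
      zero_mem' := by
        show IsCompactOperator (π 0)
        rw [map_zero]
        exact isCompactOperator_zero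
      smul_mem' := by
        intro z x hx
        show IsCompactOperator (π (z • x))
        rw [map_smul]
        exact IsCompactOperator.smul hx z }
  have hJ1 : (1 : C) ∈ J := by
    by_contra h3
    have hJ : J ∈ PI C := by
      refine ⟨?_, ?_, h3⟩
      · intro x m hm
        show IsCompactOperator (π (x * m))
        rw [map_mul]
        exact IsCompactOperator.clm_comp hm (π x)
      · intro x m hm
        show IsCompactOperator (π (m * x))
        rw [map_mul]
        exact IsCompactOperator.comp_clm hm (π x)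
    have hMJ : M ≤ J := by
      intro m hm
      show IsCompactOperator (π m)
      rw [hπ3 m hm]
      exact isCompactOperator_zero
    have hJM : J ≤ M := hM.le_of_ge hJ hMJ
    have h4 : θ b ∈ J := by
      show IsCompactOperator (π (θ b))
      rw [← hσ, hb]
      exact hT
    have h5 := hπ3 _ (hJM h4)
    rw [← hσ, hb] at h5
    apply hTξ
    rw [h5]
    rfl
  have hfin : FiniteDimensional ℂ K := by
    have h3 : IsCompactOperator (π 1) := hJ1
    rw [map_one] at h3
    exact FiniteDimensional.of_isCompactOperator_id h3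
  apply trace_contra (fun i => π (c i))
  · intro i
    have : star (π (c i)) * π (c i) - 1 = π (star (c i) * c i - 1) := by
      rw [map_sub, map_mul, map_star, map_one]
    rw [this]
    exact (norm_rep_le π _).trans (h1 i)
  · have : ∑ i, π (c i) * star (π (c i)) - 1 = π (∑ i, c i * star (c i) - 1) := by
      rw [map_sub, map_sum, map_one]
      congr 1
      apply Finset.sum_congr rfl
      intro i _
      rw [map_mul, map_star]
    rw [this]
    exact (norm_rep_le π _).trans h2

end Pool.Agent.Helper757.TI
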