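import Pool.Agent.Helper757.TI.Nuclear
import Pool.Agent.Helper757.TI.NotTypeI

set_option autoImplicit false
set_option linter.unusedSectionVars false

open scoped InnerProductSpace ComplexOrder Topology unitInterval
open Filter

noncomputable section

namespace Pool.Agent.Helper757.TI

/-- The generators of `O₂`. -/
def sD (c : Bool) : D2 := mkD2 (S c) (S_mem c)

theorem sD_star_mul (c : Bool) : star (sD c) * sD c = 1 := by
  apply incl_inj
  rw [map_mul, map_star, map_one]
  exact S_star_S c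

theorem sD_sum : ∑ c, sD c * star (sD c) = 1 := by
  apply incl_inj
  rw [map_sum, map_one]
  simp_rw [map_mul, map_star]
  exact sum_S

theorem norm_sD (c : Bool) : ‖sD c‖ ≤ 1 := by
  have h1 : ‖sD c‖ * ‖sD c‖ = 1 := by
    rw [← CStarRing.norm_star_mul_self, sD_star_mul, CStarRing.norm_one]
  nlinarith [norm_nonneg (sD c)]

/-- The elements `t ↦ t s_c` of the cone. -/
def xD (c : Bool) : CA D2 := fmul (fun t => t) continuous_id (sD c) (Or.inl rfl)

theorem ev_xD (c : Bool) : ev 1 (xD c) = sD c := by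
  rw [xD, ev_fmul]
  simp

theorem near {u s : D2} {ε : ℝ} (hε : 0 ≤ ε) (hε1 : ε ≤ 1) (hs : ‖s‖ ≤ 1) (h : ‖u - s‖ ≤ ε) :
    ‖star u * u - star s * s‖ ≤ 3 * ε ∧ ‖u * star u - s * star s‖ ≤ 3 * ε := by
  have hu : ‖u‖ ≤ 2 := by
    have : u = (u - s) + s := by abel
    rw [this]
    refine (norm_add_le _ _).trans ?_
    linarith
  constructor
  · have h1 : star u * u - star s * s = star u * (u - s) + star (u - s) * s := by
      rw [star_sub, mul_sub, sub_mul]; abel
    rw [h1]
    refine (norm_add_le _ _).trans ?_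
    have h2 : ‖star u * (u - s)‖ ≤ 2 * ε := by
      refine (norm_mul_le _ _).trans ?_
      rw [norm_star]
      exact mul_le_mul hu h (norm_nonneg _) (by norm_num)
    have h3 : ‖star (u - s) * s‖ ≤ ε * 1 := by
      refine (norm_mul_le _ _).trans ?_
      rw [norm_star]
      exact mul_le_mul h hs (norm_nonneg _) hε
    linarith
  · have h1 : u * star u - s * star s = u * star (u - s) + (u - s) * star s := by
      rw [star_sub, mul_sub, sub_mul]; abel
    rw [h1]
    refine (norm_add_le _ _).trans ?_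
    have h2 : ‖u * star (u - s)‖ ≤ 2 * ε := by
      refine (norm_mul_le _ _).trans ?_
      rw [norm_star]
      exact mul_le_mul hu h (norm_nonneg _) (by norm_num)
    have h3 : ‖(u - s) * star s‖ ≤ ε * 1 := by
      refine (norm_mul_le _ _).trans ?_
      rw [norm_star]
      exact mul_le_mul h hs (norm_nonneg _) hε
    linarith

theorem one_mem_of_near {A : Type} [CStarAlgebra A] (B : NonUnitalStarSubalgebra ℂ A)
    (hB : IsClosed (B : Set A)) {b : A} (hb : b ∈ B) (h : ‖1 - b‖ < 1) : (1 : A) ∈ B := by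
  have h1 : ∀ n : ℕ, ∃ y ∈ B, (1 - b) ^ n = 1 - y := by
    intro n
    induction n with
    | zero => exact ⟨0, zero_mem B, by simp⟩
    | succ n ih =>
      obtain ⟨y, hy, h2⟩ := ih
      refine ⟨y + b - y * b, sub_mem (add_mem hy hb) (mul_mem hy hb), ?_⟩
      rw [pow_succ, h2]
      noncomm_ring
  have h2 : Tendsto (fun n : ℕ => 1 - (1 - b) ^ n) atTop (𝓝 (1 - 0)) :=
    tendsto_const_nhds.sub (tendsto_pow_atTop_nhds_zero_of_norm_lt_one h)
  rw [sub_zero] at h2
  apply hB.mem_of_tendsto h2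
  apply Eventually.of_forall
  intro n
  obtain ⟨y, hy, h3⟩ := h1 n
  show 1 - (1 - b) ^ n ∈ B
  rw [h3, sub_sub_cancel]
  exact hy

/-- The image of `B` in `O₂`. -/
def imB (B : NonUnitalStarSubalgebra ℂ (CA D2)) (h1 : (1 : CA D2) ∈ B) : StarSubalgebra ℂ D2 where
  carrier := {x | ∃ b ∈ B, ev 1 b = x}
  mul_mem' := by
    rintro _ _ ⟨a, ha, rfl⟩ ⟨b, hb, rfl⟩
    exact ⟨a * b, mul_mem ha hb, map_mul _ _ _⟩
  one_mem' := ⟨1, h1, map_one _⟩
  add_mem' := by
    rintro _ _ ⟨a, ha, rfl⟩ ⟨b, hb, rfl⟩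
    exact ⟨a + b, add_mem ha hb, map_add _ _ _⟩
  zero_mem' := ⟨0, zero_mem B, map_zero _⟩
  algebraMap_mem' := by
    intro r
    refine ⟨r • 1, B.smul_mem r h1, ?_⟩
    rw [map_smul, map_one, Algebra.algebraMap_eq_smul_one]
  star_mem' := by
    rintro _ ⟨a, ha, rfl⟩
    exact ⟨star a, star_mem ha, map_star _ _⟩

theorem CA_not_locallyTypeI : ¬ IsLocallyTypeI (CA D2) := by
  classical
  intro hloc
  obtain ⟨B, hBc, hBt, hB⟩ := hloc {1, xD true, xD false} (1 / 100) (by norm_num)
  obtain ⟨b0, hb0, hb0'⟩ := hB 1 (by simp)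
  have h1B : (1 : CA D2) ∈ B := one_mem_of_near B hBc hb0 (by linarith)
  have hx : ∀ c, ∃ b ∈ B, ‖xD c - b‖ < 1 / 100 := by
    intro c
    apply hB
    cases c <;> simp
  choose b hb hb' using hx
  let C : StarSubalgebra ℂ D2 := (imB B h1B).topologicalClosure
  have hCc : IsClosed (C : Set D2) := StarSubalgebra.isClosed_topologicalClosure _
  have hCin : ∀ x : B, ev 1 x.1 ∈ C := fun x =>
    StarSubalgebra.le_topologicalClosure _ ⟨x.1, x.2, rfl⟩
  let θ : B →⋆ₙₐ[ℂ] C :=
    { toFun := fun x => ⟨ev 1 x.1, hCin x⟩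
      map_smul' := fun z x => Subtype.ext (map_smul (ev 1) z x.1)
      map_zero' := Subtype.ext (map_zero (ev 1))
      map_add' := fun x y => Subtype.ext (map_add (ev 1) x.1 y.1)
      map_mul' := fun x y => Subtype.ext (map_mul (ev 1) x.1 y.1)
      map_star' := fun x => Subtype.ext (map_star (ev 1) x.1) }
  have hθ : DenseRange θ := by
    rw [Metric.denseRange_iff]
    intro x r hr
    have hx : x.1 ∈ closure (imB B h1B : Set D2) := x.2
    obtain ⟨_, ⟨a, ha, rfl⟩, hy⟩ := Metric.mem_closure_iff.1 hx r hr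
    exact ⟨⟨a, ha⟩, hy⟩
  have hest : ∀ c, ‖ev 1 (b c) - sD c‖ ≤ 1 / 100 := by
    intro c
    rw [← ev_xD, ← map_sub]
    refine (norm_ev_le _ _).trans ?_
    rw [norm_sub_rev]
    exact (hb' c).le
  apply no_typeI hBt θ hθ (fun c => θ ⟨b c, hb c⟩)
  · intro c
    have h1 := (near (by norm_num) (by norm_num) (norm_sD c) (hest c)).1
    rw [sD_star_mul] at h1
    refine le_trans ?_ (h1.trans (by norm_num))
    exact le_of_eq rfl
  · have h1 : ‖∑ c, ev 1 (b c) * star (ev 1 (b c)) - 1‖ ≤ 1 / 8 := by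
      rw [← sD_sum, ← Finset.sum_sub_distrib]
      refine (norm_sum_le _ _).trans ?_
      refine (Finset.sum_le_sum fun c _ =>
        (near (by norm_num) (by norm_num) (norm_sD c) (hest c)).2).trans ?_
      simp only [Finset.sum_const, Finset.card_univ, Fintype.card_bool, nsmul_eq_mul]
      norm_num
    refine le_trans (le_of_eq ?_) h1
    have h2 : ((∑ c, θ ⟨b c, hb c⟩ * star (θ ⟨b c, hb c⟩) - 1 : C) : D2) =
        ∑ c, ev 1 (b c) * star (ev 1 (b c)) - 1 := by
      rw [Fintype.sum_bool, Fintype.sum_bool]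
      rfl
    rw [← h2]
    rfl

theorem main : ∃ (A : Type) (_ : CStarAlgebra A), TopologicalSpace.SeparableSpace A ∧
    IsNuclear A ∧ IsStablyFinite A ∧ ¬ IsLocallyTypeI A := by
  have := D2_separable
  exact ⟨CA D2, inferInstance, CA_separable, CA_nuclear, CA_stablyFinite, CA_not_locallyTypeI⟩

end Pool.Agent.Helper757.TI
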