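import Pool.Agent.Helper757.TI.Rep

set_option autoImplicit false
set_option linter.unusedSectionVars false

open scoped InnerProductSpace ComplexOrder Topology
open Filter

noncomputable section

namespace Pool.Agent.Helper757.TI

section gns

variable {C : Type} [CStarAlgebra C] [PartialOrder C] [StarOrderedRing C]
variable {M : Submodule ℂ C} {f : C → ℂ}

/-- A state in `KS M` as a positive linear map. -/
def toPos (hf : f ∈ KS M) : C →ₚ[ℂ] ℂ :=
  PositiveLinearMap.mk₀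
    { toFun := f
      map_add' := hf.1
      map_smul' := fun c x => by rw [hf.2.1]; rfl } (fun _ ha => KS_pos hf ha)

theorem toPos_apply (hf : f ∈ KS M) (c : C) : toPos hf c = f c := rfl

theorem exists_rep (hM : M ∈ PI C) (hf : f ∈ KS M) :
    ∃ (K : Type) (_ : NormedAddCommGroup K) (_ : InnerProductSpace ℂ K) (_ : CompleteSpace K)
      (π : C →⋆ₐ[ℂ] (K →L[ℂ] K)) (ξ : K), (∀ c, ⟪ξ, π c ξ⟫_ℂ = f c) ∧
      Dense (Set.range fun c => π c ξ) ∧ ∀ m ∈ M, π m = 0 := by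
  set ρ := toPos hf with hρ
  let ξ : ρ.GNS := ((ρ.toPreGNS 1 : ρ.PreGNS) : ρ.GNS)
  have hπ : ∀ c d : C, ρ.gnsStarAlgHom c ((ρ.toPreGNS d : ρ.PreGNS) : ρ.GNS) =
      ((ρ.toPreGNS (c * d) : ρ.PreGNS) : ρ.GNS) := by
    intro c d
    exact ρ.gnsNonUnitalStarAlgHom_apply_coe
  have hξ : ∀ c : C, ρ.gnsStarAlgHom c ξ = ((ρ.toPreGNS c : ρ.PreGNS) : ρ.GNS) := by
    intro c
    have := hπ c 1
    rwa [mul_one] at this
  have hdense : Dense (Set.range fun c => ρ.gnsStarAlgHom c ξ) := by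
    have h1 : (Set.range fun c => ρ.gnsStarAlgHom c ξ) =
        Set.range ((↑) : ρ.PreGNS → ρ.GNS) := by
      ext x
      constructor
      · rintro ⟨c, rfl⟩
        exact ⟨ρ.toPreGNS c, (hξ c).symm⟩
      · rintro ⟨a, rfl⟩
        exact ⟨ρ.ofPreGNS a, hξ _⟩
    rw [h1]
    exact UniformSpace.Completion.denseRange_coe
  refine ⟨ρ.GNS, inferInstance, inferInstance, inferInstance, ρ.gnsStarAlgHom, ξ, ?_, hdense, ?_⟩
  · intro c
    rw [hξ, UniformSpace.Completion.inner_coe, PositiveLinearMap.preGNS_inner_def]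
    simp only [PositiveLinearMap.ofPreGNS_toPreGNS, star_one, one_mul]
    rfl
  · intro m hm
    ext x
    have h1 : Set.EqOn (ρ.gnsStarAlgHom m) (0 : ρ.GNS →L[ℂ] ρ.GNS)
        (Set.range fun c => ρ.gnsStarAlgHom c ξ) := by
      rintro _ ⟨c, rfl⟩
      simp only [zero_apply]
      rw [hξ, hπ, ← norm_eq_zero, UniformSpace.Completion.norm_coe]
      have h2 := ρ.preGNS_norm_sq (ρ.toPreGNS (m * c))
      have h3 : ρ (star (ρ.ofPreGNS (ρ.toPreGNS (m * c))) * ρ.ofPreGNS (ρ.toPreGNS (m * c))) = 0 := by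
        show f (star (m * c) * (m * c)) = 0
        apply hf.2.2.2.2
        exact hM.1 _ _ (hM.2.1 _ _ hm)
      rw [h3] at h2
      have h4 : (‖ρ.toPreGNS (m * c)‖ : ℂ) = 0 := by
        exact pow_eq_zero_iff (two_ne_zero) |>.1 h2
      exact_mod_cast h4
    have h5 := Continuous.ext_on hdense (ρ.gnsStarAlgHom m).continuous
      (0 : ρ.GNS →L[ℂ] ρ.GNS).continuous h1
    exact congrFun h5 x

end gns

section irr

variable {C : Type} [CStarAlgebra C]
variable {M : Submodule ℂ C} {f : C → ℂ}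
variable {K : Type} [NormedAddCommGroup K] [InnerProductSpace ℂ K] [CompleteSpace K]

theorem norm_rep_le (π : C →⋆ₐ[ℂ] (K →L[ℂ] K)) (c : C) : ‖π c‖ ≤ ‖c‖ :=
  NonUnitalStarAlgHom.norm_apply_le π c

theorem irred (hf : f ∈ (KS M).extremePoints ℝ) (π : C →⋆ₐ[ℂ] (K →L[ℂ] K)) (ξ : K)
    (h1 : ∀ c, ⟪ξ, π c ξ⟫_ℂ = f c) (h2 : Dense (Set.range fun c => π c ξ))
    (h3 : ∀ m ∈ M, π m = 0) (E : Submodule ℂ K) (hE : IsClosed (E : Set K))
    (hinv : ∀ c, ∀ x ∈ E, π c x ∈ E) : E = ⊥ ∨ E = ⊤ := by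
  have : CompleteSpace E := hE.completeSpace_coe
  have hinv' : ∀ c, ∀ x ∈ Eᗮ, π c x ∈ Eᗮ := by
    intro c x hx
    rw [Submodule.mem_orthogonal] at hx ⊢
    intro u hu
    have h4 : ⟪u, π c x⟫_ℂ = ⟪π (star c) u, x⟫_ℂ := by
      rw [map_star, ContinuousLinearMap.star_eq_adjoint, ContinuousLinearMap.adjoint_inner_left]
    rw [h4]
    exact hx _ (hinv _ u hu)
  -- decomposition of the cyclic vector
  obtain ⟨ξ1, hξ1, ξ2, hξ2, hsum⟩ := E.exists_add_mem_mem_orthogonal ξ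
  have hcross : ∀ c, ⟪ξ1, π c ξ2⟫_ℂ = 0 := fun c =>
    (Submodule.mem_orthogonal _ _).1 (hinv' c ξ2 hξ2) ξ1 hξ1
  have hcross' : ∀ c, ⟪ξ2, π c ξ1⟫_ℂ = 0 := fun c => by
    have := (Submodule.mem_orthogonal _ _).1 hξ2 (π c ξ1) (hinv c ξ1 hξ1)
    rw [← inner_conj_symm, this, map_zero]
  have hfdec : ∀ c, f c = ⟪ξ1, π c ξ1⟫_ℂ + ⟪ξ2, π c ξ2⟫_ℂ := by
    intro c
    rw [← h1, hsum, map_add, inner_add_left, inner_add_right, inner_add_right, hcross, hcross']
    ring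
  have hf1 : f 1 = 1 := hf.1.2.2.2.1
  have hnorm : (‖ξ1‖ ^ 2 + ‖ξ2‖ ^ 2 : ℝ) = 1 := by
    have h4 := hfdec 1
    rw [hf1, map_one] at h4
    simp only [one_apply_eq_self] at h4
    rw [inner_self_eq_norm_sq_to_K, inner_self_eq_norm_sq_to_K] at h4
    apply Complex.ofReal_injective
    push_cast
    exact h4.symm
  by_cases hz1 : ξ1 = 0
  · left
    rw [eq_bot_iff]
    intro x hx
    rw [Submodule.mem_bot]
    have h4 : ∀ c, ⟪x, π c ξ⟫_ℂ = 0 := by
      intro c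
      rw [hsum, hz1, zero_add]
      exact (Submodule.mem_orthogonal _ _).1 (hinv' c ξ2 hξ2) x hx
    have h5 : ∀ y, ⟪x, y⟫_ℂ = 0 := by
      have := Continuous.ext_on (f := fun y => ⟪x, y⟫_ℂ) (g := fun _ => 0) h2 (by fun_prop)
        continuous_const (by
          rintro _ ⟨c, rfl⟩
          exact h4 c)
      exact fun y => congrFun this y
    exact inner_self_eq_zero.1 (h5 x)
  by_cases hz2 : ξ2 = 0
  · right
    rw [eq_top_iff]
    intro x _
    have h4 : (Set.range fun c => π c ξ) ⊆ (E : Set K) := by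
      rintro _ ⟨c, rfl⟩
      rw [hsum, hz2, add_zero]
      exact hinv c ξ1 hξ1
    have h5 : closure (Set.range fun c => π c ξ) ⊆ (E : Set K) := hE.closure_subset_iff.2 h4
    rw [h2.closure_eq] at h5
    exact h5 (Set.mem_univ x)
  exfalso
  set l : ℝ := ‖ξ1‖ ^ 2 with hl
  set l' : ℝ := ‖ξ2‖ ^ 2 with hl'
  have hl0 : 0 < l := by
    have := norm_pos_iff.2 hz1
    positivity
  have hl0' : 0 < l' := by
    have := norm_pos_iff.2 hz2
    positivity
  -- general: vector states of invariant components belong to `KS M`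
  have hKS : ∀ η : K, η ≠ 0 → (fun c => ((‖η‖ ^ 2 : ℝ) : ℂ)⁻¹ * ⟪η, π c η⟫_ℂ) ∈ KS M := by
    intro η hη
    have hη0 : (0 : ℝ) < ‖η‖ ^ 2 := by
      have := norm_pos_iff.2 hη
      positivity
    refine ⟨?_, ?_, ?_, ?_, ?_⟩
    · intro x y
      simp only
      rw [map_add, add_apply, inner_add_right, mul_add]
    · intro c x
      simp only
      rw [map_smul, smul_apply, inner_smul_right]
      ring
    · intro x
      simp only
      rw [norm_mul, norm_inv, Complex.norm_real, Real.norm_eq_abs, abs_of_pos hη0]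
      have h4 : ‖⟪η, π x η⟫_ℂ‖ ≤ ‖η‖ * (‖x‖ * ‖η‖) := by
        refine (norm_inner_le_norm _ _).trans ?_
        apply mul_le_mul_of_nonneg_left _ (norm_nonneg _)
        exact ((π x).le_opNorm η).trans (mul_le_mul_of_nonneg_right (norm_rep_le π x)
          (norm_nonneg _))
      rw [inv_mul_le_iff₀ hη0]
      nlinarith
    · simp only
      rw [map_one]
      simp only [one_apply_eq_self]
      rw [inner_self_eq_norm_sq_to_K]
      rw [inv_mul_eq_div, div_eq_one_iff_eq (by exact_mod_cast hη0.ne')]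
      push_cast
      rfl
    · intro m hm
      simp only
      rw [h3 m hm, zero_apply, inner_zero_right, mul_zero]
  have hext := hf.2 (hKS ξ1 hz1) (hKS ξ2 hz2) (by
    refine ⟨l, l', hl0, hl0', hnorm, ?_⟩
    ext c
    simp only [Pi.add_apply, Pi.smul_apply, Complex.real_smul]
    rw [hfdec c, ← hl, ← hl', mul_inv_cancel_left₀ (by exact_mod_cast hl0.ne'),
      mul_inv_cancel_left₀ (by exact_mod_cast hl0'.ne')])
  have h4 : ∀ c, ⟪ξ1, π c ξ1⟫_ℂ = (l : ℂ) * f c := by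
    intro c
    have h5 : ((‖ξ1‖ ^ 2 : ℝ) : ℂ)⁻¹ * ⟪ξ1, π c ξ1⟫_ℂ = f c := by
      exact congrFun hext c
    rw [← h5, ← hl, mul_inv_cancel_left₀ (by exact_mod_cast hl0.ne')]
  have h5 : ∀ c, ⟪ξ1 - (l : ℂ) • ξ, π c ξ⟫_ℂ = 0 := by
    intro c
    rw [inner_sub_left, inner_smul_left, h1, Complex.conj_ofReal, ← h4]
    rw [hsum, map_add, inner_add_right, hcross, add_zero, sub_self]
  have h6 : ξ1 = (l : ℂ) • ξ := by
    have h7 : ∀ y, ⟪ξ1 - (l : ℂ) • ξ, y⟫_ℂ = 0 := by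
      have := Continuous.ext_on (f := fun y => ⟪ξ1 - (l : ℂ) • ξ, y⟫_ℂ) (g := fun _ => 0) h2
        (by fun_prop) continuous_const (by
          rintro _ ⟨c, rfl⟩
          exact h5 c)
      exact fun y => congrFun this y
    exact sub_eq_zero.1 (inner_self_eq_zero.1 (h7 _))
  -- take the inner product with ξ2
  have h7 : ⟪ξ2, ξ1⟫_ℂ = 0 := by
    have := hcross' 1
    rw [map_one] at this
    exact this
  have h7' : ⟪ξ2, (l : ℂ) • ξ⟫_ℂ = 0 := by rw [← h6]; exact h7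
  rw [inner_smul_right, hsum, inner_add_right, h7, zero_add, inner_self_eq_norm_sq_to_K] at h7'
  have h8 : (l : ℂ) * ((‖ξ2‖ : ℂ) ^ 2) = 0 := h7'
  have h9 : l * l' = 0 := by
    rw [hl']
    exact_mod_cast h8
  have h10 : 0 < l * l' := mul_pos hl0 hl0'
  linarith

end irr

end Pool.Agent.Helper757.TI
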