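import Pool.Agent.Helper757.TI.CP
import Pool.Agent.Helper757.TI.Cuntz

set_option autoImplicit false

open scoped InnerProductSpace ComplexOrder CStarAlgebra

noncomputable section

namespace Pool.Agent.Helper757.TI

theorem sum3' {M α β γ : Type*} [AddCommMonoid M] [Fintype α] [Fintype β] [Fintype γ]
    (f : α → β → γ → M) : ∑ i, ∑ j, ∑ l, f i j l = ∑ l, ∑ i, ∑ j, f i j l := by
  calc ∑ i, ∑ j, ∑ l, f i j l = ∑ i, ∑ l, ∑ j, f i j l :=
        Finset.sum_congr rfl fun i _ => Finset.sum_comm
    _ = _ := Finset.sum_comm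

theorem sum4' {M α β γ δ : Type*} [AddCommMonoid M] [Fintype α] [Fintype β] [Fintype γ]
    [Fintype δ] (f : α → β → γ → δ → M) :
    ∑ i, ∑ j, ∑ l, ∑ m, f i j l m = ∑ l, ∑ m, ∑ i, ∑ j, f i j l m := by
  rw [sum3' (fun i j l => ∑ m, f i j l m)]
  apply Finset.sum_congr rfl
  intro l _
  exact sum3' (fun i j m => f i j l m)

theorem cm_sum_apply {ι n A : Type*} [AddCommMonoid A] (s : Finset ι)
    (f : ι → CStarMatrix n n A) (p q : n) : (∑ i ∈ s, f i) p q = ∑ i ∈ s, f i p q := by
  classical
  induction s using Finset.induction_on with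
  | empty => simp
  | insert a s ha ih => rw [Finset.sum_insert ha, Finset.sum_insert ha, CStarMatrix.add_apply, ih]

section gram

variable {n R : Type*} [Fintype n] [DecidableEq n] [Fintype R]

theorem gram_nonneg (P : CStarMatrix n n ℂ) (W : R → n → H)
    (hP : ∀ p q, P p q = ∑ r, ⟪W r p, W r q⟫_ℂ) : 0 ≤ P := by
  apply nonneg_of_quad
  · rw [isSelfAdjoint_iff]
    ext p q
    rw [CStarMatrix.star_apply, hP, hP, star_sum]
    apply Finset.sum_congr rfl
    intro r _
    exact inner_conj_symm _ _
  · intro c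
    have : ∑ p, ∑ q, star (c p) * P p q * c q =
        ∑ r, ⟪∑ p, c p • W r p, ∑ q, c q • W r q⟫_ℂ := by
      have h1 : ∀ r, ⟪∑ p, c p • W r p, ∑ q, c q • W r q⟫_ℂ =
          ∑ p, ∑ q, star (c p) * ⟪W r p, W r q⟫_ℂ * c q := by
        intro r
        rw [sum_inner]
        apply Finset.sum_congr rfl
        intro p _
        rw [inner_sum]
        apply Finset.sum_congr rfl
        intro q _
        rw [inner_smul_left, inner_smul_right]
        simp only [RCLike.star_def]
        ring
      simp_rw [h1]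
      rw [← sum3' (fun p q r => star (c p) * ⟪W r p, W r q⟫_ℂ * c q)]
      apply Finset.sum_congr rfl
      intro p _
      apply Finset.sum_congr rfl
      intro q _
      rw [hP, Finset.mul_sum, Finset.sum_mul]
    rw [this]
    apply Finset.sum_nonneg
    intro r _
    rw [inner_self_eq_norm_sq_to_K]
    positivity

theorem gram_nonneg' {k : ℕ} (M : Fin k → Fin k → CStarMatrix n n ℂ) (w : R → Fin k → n → H)
    (hM : ∀ i j p q, M i j p q = ∑ r, ⟪w r i p, w r j q⟫_ℂ) (b : Fin k → CStarMatrix n n ℂ) :
    0 ≤ ∑ i, ∑ j, star (b i) * M i j * b j := by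
  apply gram_nonneg (R := R) _ (fun r p => ∑ i, ∑ p', b i p' p • w r i p')
  intro p q
  have h1 : (∑ i, ∑ j, star (b i) * M i j * b j) p q =
      ∑ i, ∑ j, (star (b i) * M i j * b j) p q := by
    rw [cm_sum_apply]
    apply Finset.sum_congr rfl
    intro i _
    rw [cm_sum_apply]
  rw [h1]
  have h2 : ∀ i j, (star (b i) * M i j * b j) p q =
      ∑ r, ⟪∑ p', b i p' p • w r i p', ∑ q', b j q' q • w r j q'⟫_ℂ := by
    intro i j
    rw [CStarMatrix.mul_apply]
    have h3 : ∀ r, ⟪∑ p', b i p' p • w r i p', ∑ q', b j q' q • w r j q'⟫_ℂ =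
        ∑ q', ∑ p', star (b i p' p) * ⟪w r i p', w r j q'⟫_ℂ * b j q' q := by
      intro r
      rw [inner_sum]
      apply Finset.sum_congr rfl
      intro q' _
      rw [sum_inner]
      apply Finset.sum_congr rfl
      intro p' _
      rw [inner_smul_left, inner_smul_right]
      simp only [RCLike.star_def]
      ring
    simp_rw [h3]
    rw [← sum3' (fun q' p' r => star (b i p' p) * ⟪w r i p', w r j q'⟫_ℂ * b j q' q)]
    apply Finset.sum_congr rfl
    intro q' _
    rw [CStarMatrix.mul_apply, Finset.sum_mul]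
    apply Finset.sum_congr rfl
    intro p' _
    rw [CStarMatrix.star_apply, hM, Finset.mul_sum, Finset.sum_mul]
  simp_rw [h2]
  simp_rw [sum_inner (𝕜 := ℂ) (s := (Finset.univ : Finset (Fin k)))]
  simp_rw [inner_sum (𝕜 := ℂ) (s := (Finset.univ : Finset (Fin k)))]
  rw [← sum3' (fun i j r => ⟪∑ p', b i p' p • w r i p', ∑ q', b j q' q • w r j q'⟫_ℂ)]

end gram

theorem inner_star_mul (T U : BH) (x y : H) : ⟪x, (star T * U) y⟫_ℂ = ⟪T x, U y⟫_ℂ := by
  have h : (star T * U) y = ContinuousLinearMap.adjoint T (U y) := rfl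
  rw [h]
  exact ContinuousLinearMap.adjoint_inner_right T x (U y)

section comp

variable {A : Type*} [CStarAlgebra A] [PartialOrder A] [StarOrderedRing A]
variable {n R : Type*} [Fintype n] [DecidableEq n] [Fintype R] [DecidableEq R]

/-- Block compression to the span of finitely many vectors. -/
def cmp (r : n → R) (ρ : R → A →⋆ₐ[ℂ] BH) (v : n → H) : A →ₗ[ℂ] CStarMatrix n n ℂ where
  toFun a := CStarMatrix.ofMatrix fun i j => if r i = r j then ⟪v i, ρ (r i) a (v j)⟫_ℂ else 0
  map_add' a b := by
    ext i j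
    rw [CStarMatrix.add_apply]
    show (if r i = r j then ⟪v i, ρ (r i) (a + b) (v j)⟫_ℂ else 0) =
      (if r i = r j then ⟪v i, ρ (r i) a (v j)⟫_ℂ else 0) +
      (if r i = r j then ⟪v i, ρ (r i) b (v j)⟫_ℂ else 0)
    rw [map_add, add_apply, inner_add_right]
    split_ifs <;> simp
  map_smul' c a := by
    ext i j
    rw [CStarMatrix.smul_apply]
    show (if r i = r j then ⟪v i, ρ (r i) (c • a) (v j)⟫_ℂ else 0) =
      c * (if r i = r j then ⟪v i, ρ (r i) a (v j)⟫_ℂ else 0)
    rw [map_smul, smul_apply, inner_smul_right]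
    split_ifs <;> simp

theorem cmp_apply (r : n → R) (ρ : R → A →⋆ₐ[ℂ] BH) (v : n → H) (a : A) (i j : n) :
    cmp r ρ v a i j = if r i = r j then ⟪v i, ρ (r i) a (v j)⟫_ℂ else 0 := rfl

theorem cmp_star (r : n → R) (ρ : R → A →⋆ₐ[ℂ] BH) (v : n → H) (a : A) :
    cmp r ρ v (star a) = star (cmp r ρ v a) := by
  ext i j
  rw [CStarMatrix.star_apply, cmp_apply, cmp_apply]
  by_cases h : r i = r j
  · rw [if_pos h, if_pos h.symm, map_star, ContinuousLinearMap.star_eq_adjoint,
      ContinuousLinearMap.adjoint_inner_right, h]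
    exact (inner_conj_symm _ _).symm
  · rw [if_neg h, if_neg (Ne.symm h), star_zero]

theorem cmp_CPalg (r : n → R) (ρ : R → A →⋆ₐ[ℂ] BH) (v : n → H) : CPalg (cmp r ρ v) := by
  intro k a b
  apply gram_nonneg' (R := R) _ (fun s i p => if r p = s then ρ s (a i) (v p) else 0)
  intro i j p q
  rw [cmp_apply]
  by_cases h : r p = r q
  · rw [if_pos h, Finset.sum_eq_single (r p)]
    · rw [if_pos rfl, if_pos h.symm, map_mul, map_star, inner_star_mul]
    · intro s _ hs
      rw [if_neg (Ne.symm hs), inner_zero_left]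
    · intro h
      exact absurd (Finset.mem_univ _) h
  · rw [if_neg h]
    symm
    apply Finset.sum_eq_zero
    intro s _
    by_cases h1 : r p = s
    · rw [if_neg (show ¬ r q = s from fun h2 => h (h1.trans h2.symm)), inner_zero_right]
    · rw [if_neg h1, inner_zero_left]

end comp

section syn

variable {B : Type*} [CStarAlgebra B] [PartialOrder B] [StarOrderedRing B]
variable {n T : Type*} [Fintype n] [DecidableEq n] [Fintype T]

/-- The completely positive maps `M ↦ ∑_t R_t M R_t^*` from a matrix algebra. -/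
def syn (R : T → n → B) : CStarMatrix n n ℂ →ₗ[ℂ] B where
  toFun M := ∑ t, ∑ p, ∑ q, M p q • (R t p * star (R t q))
  map_add' M N := by
    rw [← Finset.sum_add_distrib]
    apply Finset.sum_congr rfl
    intro t _
    rw [← Finset.sum_add_distrib]
    apply Finset.sum_congr rfl
    intro p _
    rw [← Finset.sum_add_distrib]
    apply Finset.sum_congr rfl
    intro q _
    rw [CStarMatrix.add_apply, add_smul]
  map_smul' c M := by
    rw [Finset.smul_sum]
    apply Finset.sum_congr rfl
    intro t _
    rw [Finset.smul_sum]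
    apply Finset.sum_congr rfl
    intro p _
    rw [Finset.smul_sum]
    apply Finset.sum_congr rfl
    intro q _
    rw [CStarMatrix.smul_apply, smul_assoc, RingHom.id_apply]

theorem syn_apply (R : T → n → B) (M : CStarMatrix n n ℂ) :
    syn R M = ∑ t, ∑ p, ∑ q, M p q • (R t p * star (R t q)) := rfl

theorem syn_star (R : T → n → B) (M : CStarMatrix n n ℂ) : syn R (star M) = star (syn R M) := by
  rw [syn_apply, syn_apply, star_sum]
  apply Finset.sum_congr rfl
  intro t _
  rw [star_sum]
  simp_rw [star_sum]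
  rw [Finset.sum_comm]
  apply Finset.sum_congr rfl
  intro q _
  apply Finset.sum_congr rfl
  intro p _
  rw [CStarMatrix.star_apply, star_smul, star_mul, star_star]

theorem syn_CPalg (R : T → n → B) : CPalg (syn R) := by
  intro k a b
  have key : ∑ i, ∑ j, star (b i) * syn R (star (a i) * a j) * b j =
      ∑ t, ∑ γ, star (∑ j, ∑ q, a j γ q • (star (R t q) * b j)) *
        (∑ j, ∑ q, a j γ q • (star (R t q) * b j)) := by
    have h1 : ∀ t γ, star (∑ j, ∑ q, a j γ q • (star (R t q) * b j)) *
        (∑ j, ∑ q, a j γ q • (star (R t q) * b j)) =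
        ∑ i, ∑ j, ∑ p, ∑ q, (star (a i γ p) * a j γ q) •
          (star (b i) * (R t p * star (R t q)) * b j) := by
      intro t γ
      rw [star_sum, Finset.sum_mul]
      apply Finset.sum_congr rfl
      intro i _
      rw [Finset.mul_sum]
      apply Finset.sum_congr rfl
      intro j _
      rw [star_sum, Finset.sum_mul]
      apply Finset.sum_congr rfl
      intro p _
      rw [Finset.mul_sum]
      apply Finset.sum_congr rfl
      intro q _
      rw [star_smul, star_mul, star_star, smul_mul_smul_comm]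
      simp only [mul_assoc]
    have h2 : ∀ i j, star (b i) * syn R (star (a i) * a j) * b j =
        ∑ t, ∑ γ, ∑ p, ∑ q, (star (a i γ p) * a j γ q) •
          (star (b i) * (R t p * star (R t q)) * b j) := by
      intro i j
      rw [syn_apply, Finset.mul_sum, Finset.sum_mul]
      apply Finset.sum_congr rfl
      intro t _
      rw [Finset.mul_sum, Finset.sum_mul]
      rw [← sum3' (fun p q γ => (star (a i γ p) * a j γ q) •
          (star (b i) * (R t p * star (R t q)) * b j))]
      apply Finset.sum_congr rfl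
      intro p _
      rw [Finset.mul_sum, Finset.sum_mul]
      apply Finset.sum_congr rfl
      intro q _
      rw [CStarMatrix.mul_apply, mul_smul_comm, smul_mul_assoc, Finset.sum_smul]
      apply Finset.sum_congr rfl
      intro γ _
      rw [CStarMatrix.star_apply]
    simp_rw [h1, h2]
    exact sum4' (fun i j t γ => ∑ p, ∑ q, (star (a i γ p) * a j γ q) •
          (star (b i) * (R t p * star (R t q)) * b j))
  rw [key]
  apply Finset.sum_nonneg
  intro t _
  apply Finset.sum_nonneg
  intro γ _
  exact star_mul_self_nonneg _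

end syn

end Pool.Agent.Helper757.TI
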