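import Pool.Agent.Helper757.TI.Cone

set_option autoImplicit false
set_option linter.unusedSectionVars false

open scoped InnerProductSpace ComplexOrder CStarAlgebra Topology unitInterval
open Filter

noncomputable section

namespace Pool.Agent.Helper757.TI

/-! ### The hat functions -/

/-- Ramp functions. -/
def G : ℕ → ℝ → ℝ
  | 0, _ => 1
  | r + 1, x => min 1 (max 0 (x - r))

/-- Hat functions. -/
def hh (r : ℕ) (x : ℝ) : ℝ := G r x - G (r + 1) x

theorem G_anti (r : ℕ) (x : ℝ) : G (r + 1) x ≤ G r x := by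
  cases r with
  | zero => exact min_le_left _ _
  | succ r =>
    simp only [G]
    apply min_le_min_left
    apply max_le_max_left
    push_cast
    linarith

theorem hh_nonneg (r : ℕ) (x : ℝ) : 0 ≤ hh r x := sub_nonneg.2 (G_anti r x)

theorem G_cont (r : ℕ) : Continuous (G r) := by
  cases r with
  | zero => exact continuous_const
  | succ r =>
    show Continuous fun x : ℝ => min 1 (max 0 (x - r))
    fun_prop

theorem hh_cont (r : ℕ) : Continuous (hh r) := (G_cont r).sub (G_cont (r + 1))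

theorem sum_hh (m : ℕ) {x : ℝ} (hx : x ≤ m) : ∑ r : Fin (m + 1), hh r x = 1 := by
  rw [Fin.sum_univ_eq_sum_range (fun r => hh r x) (m + 1)]
  simp only [hh]
  rw [Finset.sum_range_sub']
  simp only [G]
  rw [max_eq_left (by linarith)]
  norm_num

theorem hh_zero_succ (r : ℕ) : hh (r + 1) 0 = 0 := by
  simp only [hh, G]
  rw [max_eq_left (by have := Nat.cast_nonneg (α := ℝ) r; linarith),
    max_eq_left (by have := Nat.cast_nonneg (α := ℝ) (r + 1); linarith)]
  norm_num

theorem hh_support {r : ℕ} {x : ℝ} (hx : 0 ≤ x) (h : hh r x ≠ 0) : |x - r| ≤ 1 := by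
  by_contra hcon
  apply h
  rw [not_le, lt_abs] at hcon
  cases r with
  | zero =>
    simp only [hh, G]
    simp only [Nat.cast_zero, sub_zero] at hcon ⊢
    rcases hcon with h1 | h1
    · rw [max_eq_right hx, min_eq_left h1.le, sub_self]
    · linarith
  | succ r =>
    simp only [hh, G]
    push_cast at hcon ⊢
    rcases hcon with h1 | h1
    · rw [max_eq_right (by linarith), max_eq_right (by linarith), min_eq_left (by linarith),
        min_eq_left (by linarith), sub_self]
    · rw [max_eq_left (by linarith), max_eq_left (by linarith), sub_self]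

/-! ### The Cuntz algebra as a type -/

instance O2_closed : IsClosed (O2 : Set BH) := O2_isClosed

/-- The Cuntz algebra `O₂`. -/
def D2 : Type := O2

instance : CStarAlgebra D2 := inferInstanceAs (CStarAlgebra O2)

/-- The inclusion. -/
def incl : D2 →⋆ₐ[ℂ] BH where
  toFun x := x.1
  map_one' := rfl
  map_mul' _ _ := rfl
  map_zero' := rfl
  map_add' _ _ := rfl
  commutes' _ := rfl
  map_star' _ := rfl

theorem incl_norm (x : D2) : ‖incl x‖ = ‖x‖ := rfl

theorem incl_inj {x y : D2} (h : incl x = incl y) : x = y := Subtype.ext h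

theorem incl_mem (x : D2) : incl x ∈ O2 := x.2

/-- Constructor. -/
def mkD2 (x : BH) (h : x ∈ O2) : D2 := ⟨x, h⟩

theorem incl_mkD2 (x : BH) (h : x ∈ O2) : incl (mkD2 x h) = x := rfl

instance : Nontrivial D2 := by
  refine ⟨⟨0, 1, fun h => ?_⟩⟩
  have h1 := congrArg incl h
  rw [map_zero, map_one] at h1
  have h2 : (0 : BH) (e 0) = (1 : BH) (e 0) := by rw [h1]
  have h3 : (0 : H) = e 0 := h2
  have h4 := e_inner 0 0
  rw [← h3, inner_zero_left, if_pos rfl] at h4
  exact zero_ne_one h4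

theorem D2_separable : TopologicalSpace.SeparableSpace D2 := by
  have h1 : mono = Set.range (fun p : List Bool × List Bool => sw p.1 * star (sw p.2)) := by
    ext x
    constructor
    · rintro ⟨μ, ν, rfl⟩; exact ⟨(μ, ν), rfl⟩
    · rintro ⟨⟨μ, ν⟩, rfl⟩; exact ⟨μ, ν, rfl⟩
  have h2 : mono.Countable := by
    rw [h1]
    exact Set.countable_range _
  have h3 : TopologicalSpace.IsSeparable (O2 : Set BH) :=
    (h2.isSeparable.span (R := ℂ)).closure.mono fun _ hx => O2_le hx
  exact h3.separableSpace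

/-- The word operators in `O₂`. -/
def swD (w : List Bool) : D2 := mkD2 (sw w) (sw_mem w)

/-! ### The approximating maps -/

local instance : PartialOrder (CA D2) := CStarAlgebra.spectralOrder (CA D2)
local instance : StarOrderedRing (CA D2) := CStarAlgebra.spectralOrderedRing (CA D2)

/-- The grid points. -/
def pt (m : ℕ) (hm : 1 ≤ m) (r : Fin (m + 1)) : I :=
  ⟨(r : ℝ) / m, by positivity, by
    have h1 : (0 : ℝ) < m := by exact_mod_cast hm
    rw [div_le_one h1]
    exact_mod_cast Nat.lt_succ_iff.1 r.2⟩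

theorem pt_zero (m : ℕ) (hm : 1 ≤ m) : pt m hm 0 = 0 := by
  apply Subtype.ext
  simp [pt]

theorem hh_zero_ne {m : ℕ} {r : Fin (m + 1)} (hr : r ≠ 0) : hh r 0 = 0 := by
  obtain ⟨k, hk⟩ := Nat.exists_eq_succ_of_ne_zero (fun h => hr (Fin.ext h) : (r : ℕ) ≠ 0)
  rw [hk]
  exact hh_zero_succ k

/-- Multiples of a fixed element by a real function. -/
def fmul (g : ℝ → ℝ) (hg : Continuous g) (x : D2) (h : g 0 = 0 ∨ x = 1) : CA D2 :=
  mkCA ⟨fun t => ((g t : ℝ) : ℂ) • x, by fun_prop⟩ (by
    rcases h with h | h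
    · refine ⟨0, ?_⟩
      simp [h]
    · refine ⟨g 0, ?_⟩
      simp [h])

theorem ev_fmul (g : ℝ → ℝ) (hg : Continuous g) (x : D2) (h : g 0 = 0 ∨ x = 1) (t : I) :
    ev t (fmul g hg x h) = ((g t : ℝ) : ℂ) • x := rfl

/-- Coefficient functions. -/
def gg (m : ℕ) (r : ℕ) (c : ℝ) : ℝ → ℝ := fun t => √(hh r (m * t)) * c

theorem gg_cont (m r : ℕ) (c : ℝ) : Continuous (gg m r c) := by
  have := hh_cont r
  unfold gg
  fun_prop

/-- The rows of the map back. -/
def cR (m N : ℕ) (w0 : W N) (t : Fin (m + 1)) (p : Fin (m + 1) × W N) : CA D2 :=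
  if p.1 = t then
    (if ht : t = 0 then
      (if p.2 = w0 then fmul (gg m t 1) (gg_cont _ _ _) 1 (Or.inr rfl) else 0)
    else fmul (gg m t ((√(N : ℝ))⁻¹)) (gg_cont _ _ _) (swD p.2) (Or.inl (by
      unfold gg
      rw [mul_zero, hh_zero_ne ht]
      simp)))
  else 0

/-- The compression. -/
def cphi (m : ℕ) (hm : 1 ≤ m) (N : ℕ) :
    CA D2 →ₗ[ℂ] CStarMatrix (Fin (m + 1) × W N) (Fin (m + 1) × W N) ℂ :=
  cmp (R := Fin (m + 1)) (fun p => p.1) (fun r => incl.comp (ev (pt m hm r))) (fun p => vw p.2)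

/-- The map back. -/
def cpsi (m N : ℕ) (w0 : W N) :
    CStarMatrix (Fin (m + 1) × W N) (Fin (m + 1) × W N) ℂ →ₗ[ℂ] CA D2 :=
  syn (T := Fin (m + 1)) (cR m N w0)

theorem cphi_apply (m : ℕ) (hm : 1 ≤ m) (N : ℕ) (f : CA D2) (p q : Fin (m + 1) × W N) :
    cphi m hm N f p q =
      if p.1 = q.1 then ⟪vw p.2, incl (ev (pt m hm p.1) f) (vw q.2)⟫_ℂ else 0 := rfl

theorem cphi_one (m : ℕ) (hm : 1 ≤ m) (N : ℕ) : cphi m hm N 1 = 1 := by
  ext p q
  rw [cphi_apply, CStarMatrix.one_apply]
  by_cases h : p = q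
  · subst h
    rw [if_pos rfl, if_pos rfl, map_one, map_one]
    show ⟪vw p.2, vw p.2⟫_ℂ = 1
    rw [vw_inner, if_pos rfl]
  · rw [if_neg h]
    by_cases h1 : p.1 = q.1
    · rw [if_pos h1, map_one, map_one]
      show ⟪vw p.2, vw q.2⟫_ℂ = 0
      rw [vw_inner, if_neg]
      intro h2
      exact h (Prod.ext h1 (Subtype.ext h2))
    · rw [if_neg h1]

theorem gg_mul (m r : ℕ) (c : ℝ) (t : ℝ) (x y : BH) :
    (((gg m r c t : ℝ) : ℂ) • x) * star (((gg m r c t : ℝ) : ℂ) • y) =
      ((hh r (m * t) * (c * c) : ℝ) : ℂ) • (x * star y) := by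
  rw [star_smul, smul_mul_smul_comm]
  congr 1
  simp only [RCLike.star_def, Complex.conj_ofReal]
  rw [← Complex.ofReal_mul]
  congr 1
  unfold gg
  rw [mul_mul_mul_comm, Real.mul_self_sqrt (hh_nonneg _ _)]

/-- The value of the composition. -/
theorem ev_cpsi_cphi (m : ℕ) (hm : 1 ≤ m) (N : ℕ) (w0 : W N) (f : CA D2) (t : I) :
    incl (ev t (cpsi m N w0 (cphi m hm N f))) =
      ∑ r : Fin (m + 1), ((hh r (m * t) : ℝ) : ℂ) •
        (if r = 0 then incl (ev 0 f) else EN N (incl (ev (pt m hm r) f))) := by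
  rw [cpsi, syn_apply, map_sum, map_sum]
  apply Finset.sum_congr rfl
  intro r _
  rw [map_sum, map_sum]
  simp_rw [map_sum, map_smul, map_mul, map_star]
  rw [Fintype.sum_prod_type, Finset.sum_eq_single r]
  rotate_left
  · intro s _ hs
    apply Finset.sum_eq_zero
    intro w _
    apply Finset.sum_eq_zero
    intro q _
    rw [cR, if_neg hs, map_zero, map_zero, zero_mul, smul_zero]
  · intro h
    exact absurd (Finset.mem_univ _) h
  have hq : ∀ w : W N, (∑ q : Fin (m + 1) × W N, cphi m hm N f (r, w) q •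
      (incl (ev t (cR m N w0 r (r, w))) * star (incl (ev t (cR m N w0 r q))))) =
      ∑ w' : W N, ⟪vw w, incl (ev (pt m hm r) f) (vw w')⟫_ℂ •
      (incl (ev t (cR m N w0 r (r, w))) * star (incl (ev t (cR m N w0 r (r, w'))))) := by
    intro w
    rw [Fintype.sum_prod_type, Finset.sum_eq_single r]
    · apply Finset.sum_congr rfl
      intro w' _
      rw [cphi_apply, if_pos rfl]
    · intro s _ hs
      apply Finset.sum_eq_zero
      intro w' _
      rw [cphi_apply, if_neg (Ne.symm hs), zero_smul]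
    · intro h
      exact absurd (Finset.mem_univ _) h
  simp_rw [hq]
  by_cases hr : r = 0
  · subst hr
    rw [if_pos rfl]
    obtain ⟨z, hz⟩ := ev_zero f
    rw [Finset.sum_eq_single w0]
    · rw [Finset.sum_eq_single w0]
      · have h1 : incl (ev t (cR m N w0 0 (0, w0))) = ((gg m 0 1 t : ℝ) : ℂ) • (1 : BH) := by
          rw [cR, if_pos rfl, dif_pos rfl, if_pos rfl, ev_fmul, map_smul, map_one]
          rfl
        rw [h1, gg_mul, pt_zero, hz, map_smul, map_one]
        have h2 : ⟪vw w0, (z • (1 : BH)) (vw w0)⟫_ℂ = z := by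
          rw [smul_apply, inner_smul_right]
          show z * ⟪vw w0, vw w0⟫_ℂ = z
          rw [vw_inner, if_pos rfl, mul_one]
        rw [h2, star_one, mul_one, mul_one, mul_one, smul_comm]
        rfl
      · intro w' _ hw'
        have h2 : cR m N w0 0 (0, w') = 0 := by rw [cR, if_pos rfl, dif_pos rfl, if_neg hw']
        rw [h2, map_zero, map_zero, star_zero, mul_zero, smul_zero]
      · intro h
        exact absurd (Finset.mem_univ _) h
    · intro w _ hw
      apply Finset.sum_eq_zero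
      intro w' _
      rw [cR, if_pos rfl, dif_pos rfl, if_neg hw, map_zero, map_zero, zero_mul, smul_zero]
    · intro h
      exact absurd (Finset.mem_univ _) h
  · rw [if_neg hr, EN_sum, Finset.smul_sum]
    apply Finset.sum_congr rfl
    intro w _
    rw [Finset.smul_sum]
    apply Finset.sum_congr rfl
    intro w' _
    have h1 : ∀ w : W N, incl (ev t (cR m N w0 r (r, w))) =
        ((gg m r ((√(N : ℝ))⁻¹) t : ℝ) : ℂ) • sw w := by
      intro w
      rw [cR, if_pos rfl, dif_neg hr, ev_fmul, map_smul]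
      rfl
    rw [h1, h1, gg_mul, ← mul_inv, Real.mul_self_sqrt (Nat.cast_nonneg N)]
    simp only [smul_smul]
    congr 1
    push_cast
    ring

theorem mul_pt_le {m : ℕ} (t : I) : (m : ℝ) * t ≤ m := by
  have h1 := t.2.2
  have h2 : (0 : ℝ) ≤ m := Nat.cast_nonneg m
  nlinarith

theorem cpsi_one (m : ℕ) (hm : 1 ≤ m) (N : ℕ) (hN : 1 ≤ N) (w0 : W N) : cpsi m N w0 1 = 1 := by
  rw [← cphi_one m hm N]
  apply CA_ext
  intro t
  apply incl_inj
  rw [ev_cpsi_cphi]
  have h1 : EN N 1 = 1 := by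
    show psi N (phi N 1) = 1
    rw [phi_one, psi_one N hN]
  simp only [map_one, h1, ite_self]
  rw [← Finset.sum_smul, ← Complex.ofReal_sum, sum_hh m (mul_pt_le t), Complex.ofReal_one,
    one_smul]

theorem unif {D : Type} [CStarAlgebra D] (f : CA D) {ε : ℝ} (hε : 0 < ε) :
    ∀ᶠ m : ℕ in atTop, ∀ t t' : I, |(t : ℝ) - t'| ≤ 1 / m → ‖ev t f - ev t' f‖ < ε := by
  have h1 : UniformContinuous fun t : I => ev t f :=
    CompactSpace.uniformContinuous_of_continuous (continuous_ev f)
  obtain ⟨δ, hδ, h2⟩ := Metric.uniformContinuous_iff.1 h1 ε hε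
  obtain ⟨n, hn⟩ := exists_nat_gt (1 / δ)
  rw [eventually_atTop]
  refine ⟨n + 1, fun m hm t t' htt => ?_⟩
  rw [← dist_eq_norm]
  apply h2
  rw [Subtype.dist_eq, Real.dist_eq]
  refine htt.trans_lt ?_
  have h3 : (0 : ℝ) < m := by exact_mod_cast (by omega : 0 < m)
  rw [div_lt_iff₀ h3]
  rw [div_lt_iff₀ hδ] at hn
  have h4 : (n : ℝ) ≤ m := by exact_mod_cast (by omega : n ≤ m)
  nlinarith

theorem good_ev (f : CA D2) (t : I) {ε : ℝ} (hε : 0 < ε) :
    ∀ᶠ N : ℕ in atTop, ‖EN N (incl (ev t f)) - incl (ev t f)‖ < ε := by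
  obtain ⟨N₀, h⟩ := good_O2 (incl_mem (ev t f)) ε hε
  rw [eventually_atTop]
  exact ⟨N₀, h⟩

theorem CA_nuclear : IsNuclear (CA D2) := by
  intro F ε hε
  have h1 : ∀ᶠ m : ℕ in atTop, ∀ f ∈ F, ∀ t t' : I, |(t : ℝ) - t'| ≤ 1 / m →
      ‖ev t f - ev t' f‖ < ε / 3 := by
    rw [eventually_all_finset]
    intro f _
    exact unif f (by positivity)
  obtain ⟨m, hm1, hm⟩ := (h1.and (eventually_ge_atTop 1)).exists
  have h2 : ∀ᶠ N : ℕ in atTop, ∀ f ∈ F, ∀ r : Fin (m + 1),
      ‖EN N (incl (ev (pt m hm r) f)) - incl (ev (pt m hm r) f)‖ < ε / 3 := by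
    rw [eventually_all_finset]
    intro f _
    rw [eventually_all]
    intro r
    exact good_ev f _ (by positivity)
  obtain ⟨N, hN1, hN⟩ := (h2.and (eventually_ge_atTop 1)).exists
  have hw : (List.replicate N false) ∈ W N := by
    rw [W, Finset.mem_biUnion]
    refine ⟨N, ?_, ?_⟩
    · rw [Finset.mem_Ico]; omega
    · rw [mem_words, List.length_replicate]
  let w0 : W N := ⟨_, hw⟩
  refine ⟨Fin (m + 1) × W N, inferInstance,
    toCP (cphi m hm N) (cmp_star _ _ _) (cmp_CPalg _ _ _),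
    toCP (cpsi m N w0) (syn_star _) (syn_CPalg _), ?_, ?_, ?_⟩
  · intro a
    exact norm_le_of_CPalg (cphi m hm N) (cmp_star _ _ _) (cmp_CPalg _ _ _) (cphi_one m hm N) a
  · intro T
    exact norm_le_of_CPalg (cpsi m N w0) (syn_star _) (syn_CPalg _) (cpsi_one m hm N hN w0) T
  · intro f hf
    show ‖cpsi m N w0 (cphi m hm N f) - f‖ < ε
    refine lt_of_le_of_lt (norm_CA_le (C := 2 * (ε / 3)) (by positivity) ?_) (by linarith)
    intro t
    rw [← incl_norm, map_sub, map_sub, ev_cpsi_cphi]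
    have h3 : incl (ev t f) = ∑ r : Fin (m + 1), ((hh r (m * t) : ℝ) : ℂ) • incl (ev t f) := by
      rw [← Finset.sum_smul, ← Complex.ofReal_sum, sum_hh m (mul_pt_le t), Complex.ofReal_one,
        one_smul]
    rw [h3, ← Finset.sum_sub_distrib]
    simp_rw [← smul_sub]
    have hmR : (0 : ℝ) < m := by exact_mod_cast hm
    have h4 : ∀ r : Fin (m + 1), ‖((hh r (m * t) : ℝ) : ℂ) •
        ((if r = 0 then incl (ev 0 f) else EN N (incl (ev (pt m hm r) f))) - incl (ev t f))‖ ≤
        hh r (m * t) * (2 * (ε / 3)) := by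
      intro r
      rw [norm_smul, Complex.norm_real, Real.norm_eq_abs, abs_of_nonneg (hh_nonneg _ _)]
      by_cases h0 : hh r (m * t) = 0
      · rw [h0, zero_mul, zero_mul]
      apply mul_le_mul_of_nonneg_left _ (hh_nonneg _ _)
      have h5 : |(m : ℝ) * t - r| ≤ 1 := hh_support (mul_nonneg hmR.le t.2.1) h0
      have h6 : |((pt m hm r : I) : ℝ) - t| ≤ 1 / m := by
        rw [le_div_iff₀ hmR, ← abs_of_pos hmR, ← abs_mul]
        have : (((pt m hm r : I) : ℝ) - t) * m = - ((m : ℝ) * t - r) := by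
          simp only [pt]
          field_simp
          ring
        rw [this, abs_neg]
        exact h5
      have h7 : ‖incl (ev (pt m hm r) f) - incl (ev t f)‖ < ε / 3 := by
        rw [← map_sub, incl_norm]
        exact hm1 f hf _ _ h6
      by_cases hr : r = 0
      · subst hr
        rw [if_pos rfl]
        rw [pt_zero] at h7
        linarith
      · rw [if_neg hr]
        have h8 := hN1 f hf r
        have h9 : EN N (incl (ev (pt m hm r) f)) - incl (ev t f) =
          (EN N (incl (ev (pt m hm r) f)) - incl (ev (pt m hm r) f)) +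
          (incl (ev (pt m hm r) f) - incl (ev t f)) := by abel
        rw [h9]
        refine (norm_add_le _ _).trans ?_
        linarith
    refine (norm_sum_le _ _).trans ((Finset.sum_le_sum fun r _ => h4 r).trans ?_)
    rw [← Finset.sum_mul, sum_hh m (mul_pt_le t), one_mul]

end Pool.Agent.Helper757.TI
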