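import Pool.Agent.Helper757.TI.Defs

set_option autoImplicit false
set_option linter.unusedSectionVars false

open scoped InnerProductSpace ComplexOrder Topology
open Filter

noncomputable section

namespace Pool.Agent.Helper757.TI

/-! ### Maximal two-sided ideals -/

section ideals

variable (C : Type) [CStarAlgebra C]

/-- Proper two-sided ideals. -/
def PI : Set (Submodule ℂ C) :=
  {M | (∀ x : C, ∀ m ∈ M, x * m ∈ M) ∧ (∀ x : C, ∀ m ∈ M, m * x ∈ M) ∧ (1 : C) ∉ M}

theorem exists_maximal_PI [Nontrivial C] : ∃ M : Submodule ℂ C, Maximal (fun M => M ∈ PI C) M := by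
  have hbot : (⊥ : Submodule ℂ C) ∈ PI C := by
    refine ⟨?_, ?_, ?_⟩
    · intro x m hm
      rw [Submodule.mem_bot] at hm ⊢
      rw [hm, mul_zero]
    · intro x m hm
      rw [Submodule.mem_bot] at hm ⊢
      rw [hm, zero_mul]
    · rw [Submodule.mem_bot]
      exact one_ne_zero
  obtain ⟨M, -, hM⟩ := zorn_le_nonempty₀ (PI C) (by
    intro c hc hchain N hN
    have hdir : DirectedOn (· ≤ ·) c := hchain.directedOn
    refine ⟨sSup c, ⟨?_, ?_, ?_⟩, fun z hz => le_sSup hz⟩
    · intro x m hm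
      rw [Submodule.mem_sSup_of_directed ⟨N, hN⟩ hdir] at hm ⊢
      obtain ⟨y, hy, hmy⟩ := hm
      exact ⟨y, hy, (hc hy).1 x m hmy⟩
    · intro x m hm
      rw [Submodule.mem_sSup_of_directed ⟨N, hN⟩ hdir] at hm ⊢
      obtain ⟨y, hy, hmy⟩ := hm
      exact ⟨y, hy, (hc hy).2.1 x m hmy⟩
    · intro h1
      rw [Submodule.mem_sSup_of_directed ⟨N, hN⟩ hdir] at h1
      obtain ⟨y, hy, hmy⟩ := h1
      exact (hc hy).2.2 hmy) ⊥ hbot
  exact ⟨M, hM⟩

variable {C}

theorem PI_dist {M : Submodule ℂ C} (hM : M ∈ PI C) {m : C} (hm : m ∈ M) : 1 ≤ ‖1 - m‖ := by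
  by_contra hcon
  rw [not_le] at hcon
  have h1 : IsUnit m := by
    have := isUnit_one_sub_of_norm_lt_one hcon
    rwa [sub_sub_cancel] at this
  obtain ⟨u, hu⟩ := h1
  apply hM.2.2
  have := hM.1 (↑u⁻¹) m hm
  rwa [← hu, Units.inv_mul] at this

/-- The set of states vanishing on `M`, as functions. -/
def KS (M : Submodule ℂ C) : Set (C → ℂ) :=
  {f | (∀ x y, f (x + y) = f x + f y) ∧ (∀ (c : ℂ) x, f (c • x) = c * f x) ∧
    (∀ x, ‖f x‖ ≤ ‖x‖) ∧ f 1 = 1 ∧ ∀ m ∈ M, f m = 0}

theorem KS_nonempty {M : Submodule ℂ C} (hM : M ∈ PI C) : (KS M).Nonempty := by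
  have h1 : 1 ≤ ‖(Submodule.Quotient.mk (1 : C) : C ⧸ M)‖ := by
    by_contra hcon
    rw [not_le] at hcon
    obtain ⟨m, hm1, hm2⟩ := Submodule.Quotient.norm_mk_lt
      (Submodule.Quotient.mk (1 : C) : C ⧸ M) (sub_pos.2 hcon)
    rw [add_sub_cancel] at hm2
    rw [eq_comm, Submodule.Quotient.eq] at hm1
    have h2 := PI_dist hM hm1
    rw [sub_sub_cancel] at h2
    linarith
  have h1' : ‖(Submodule.Quotient.mk (1 : C) : C ⧸ M)‖ ≤ 1 := by
    refine (Submodule.Quotient.norm_mk_le M 1).trans ?_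
    rcases subsingleton_or_nontrivial C with hC | hC
    · rw [Subsingleton.elim (1 : C) 0, norm_zero]; norm_num
    · rw [CStarRing.norm_one]
  obtain ⟨g, hg1, hg2⟩ := exists_dual_vector ℂ (Submodule.Quotient.mk (1 : C) : C ⧸ M)
    (by linarith)
  refine ⟨fun x => g (Submodule.Quotient.mk x), ?_, ?_, ?_, ?_, ?_⟩
  · intro x y
    simp only
    rw [Submodule.Quotient.mk_add, map_add]
  · intro c x
    simp only
    rw [Submodule.Quotient.mk_smul, map_smul, smul_eq_mul]
  · intro x
    refine (g.le_opNorm _).trans ?_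
    rw [hg1, one_mul]
    exact Submodule.Quotient.norm_mk_le M x
  · simp only
    rw [hg2, le_antisymm h1' h1]
    simp
  · intro m hm
    simp only
    rw [(Submodule.Quotient.mk_eq_zero M).2 hm, map_zero]

theorem KS_compact (M : Submodule ℂ C) : IsCompact (KS M) := by
  have h1 : IsCompact (Set.pi Set.univ fun x : C => Metric.closedBall (0 : ℂ) ‖x‖) :=
    isCompact_univ_pi fun x => isCompact_closedBall _ _
  have h2 : IsClosed (KS M) := by
    have : KS M = (⋂ x : C, ⋂ y : C, {f : C → ℂ | f (x + y) = f x + f y}) ∩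
        ((⋂ c : ℂ, ⋂ x : C, {f : C → ℂ | f (c • x) = c * f x}) ∩
        ((⋂ x : C, {f : C → ℂ | ‖f x‖ ≤ ‖x‖}) ∩ ({f : C → ℂ | f 1 = 1} ∩
        (⋂ m : C, ⋂ _ : m ∈ M, {f : C → ℂ | f m = 0})))) := by
      ext f
      simp only [KS, Set.mem_ofPred_eq, Set.mem_inter_iff, Set.mem_iInter]
    rw [this]
    refine IsClosed.inter ?_ (IsClosed.inter ?_ (IsClosed.inter ?_ (IsClosed.inter ?_ ?_)))
    · exact isClosed_iInter fun x => isClosed_iInter fun y =>
        isClosed_eq (continuous_apply _) (by fun_prop)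
    · exact isClosed_iInter fun c => isClosed_iInter fun x =>
        isClosed_eq (continuous_apply _) (by fun_prop)
    · exact isClosed_iInter fun x => isClosed_le (continuous_apply _).norm continuous_const
    · exact isClosed_eq (continuous_apply _) continuous_const
    · exact isClosed_iInter fun m => isClosed_iInter fun _ =>
        isClosed_eq (continuous_apply _) continuous_const
  apply h1.of_isClosed_subset h2
  intro f hf x _
  rw [mem_closedBall_zero_iff]
  exact hf.2.2.1 x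

theorem exists_extreme {M : Submodule ℂ C} (hM : M ∈ PI C) : ∃ f, f ∈ (KS M).extremePoints ℝ :=
  (KS_compact M).extremePoints_nonempty (KS_nonempty hM)

variable [PartialOrder C] [StarOrderedRing C]

/-- Unital contractive functionals are positive. -/
theorem KS_pos {M : Submodule ℂ C} {f : C → ℂ} (hf : f ∈ KS M) {a : C} (ha : 0 ≤ a) :
    0 ≤ f a := by
  obtain ⟨hadd, hsmul, hnorm, hone, -⟩ := hf
  have hsub : ∀ x y, f (x - y) = f x - f y := by
    intro x y
    rw [sub_eq_add_neg, hadd, ← neg_one_smul ℂ y, hsmul]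
    ring
  have hsa : star a = a := (IsSelfAdjoint.of_nonneg ha).star_eq
  -- the imaginary part vanishes
  have him : (f a).im = 0 := by
    have key : ∀ t : ℝ, ((f a).im + t) ^ 2 ≤ ‖a‖ ^ 2 + t ^ 2 := by
      intro t
      have h1 : f (a + (t * Complex.I) • (1 : C)) = f a + t * Complex.I := by
        rw [hadd, hsmul, hone, mul_one]
      have h2 := hnorm (a + (t * Complex.I) • (1 : C))
      rw [h1] at h2
      have h3 : ‖a + (t * Complex.I) • (1 : C)‖ ^ 2 ≤ ‖a‖ ^ 2 + t ^ 2 := by
        rw [sq, ← CStarRing.norm_star_mul_self]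
        have h4 : star (a + (t * Complex.I) • (1 : C)) * (a + (t * Complex.I) • (1 : C)) =
            star a * a + ((t ^ 2 : ℝ) : ℂ) • (1 : C) := by
          rw [star_add, star_smul, star_one, hsa]
          simp only [add_mul, mul_add, smul_mul_assoc, mul_smul_comm, one_mul, mul_one]
          have h5 : (star ((t : ℂ) * Complex.I)) = - ((t : ℂ) * Complex.I) := by
            simp
          have h6 : ((t : ℂ) * Complex.I) * (-((t : ℂ) * Complex.I)) = ((t ^ 2 : ℝ) : ℂ) := by
            push_cast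
            have := Complex.I_sq
            linear_combination (-(t : ℂ) ^ 2) * this
          rw [h5, smul_add, smul_smul, h6, neg_smul]
          abel
        rw [h4]
        refine (norm_add_le _ _).trans ?_
        rw [CStarRing.norm_star_mul_self, norm_smul, Complex.norm_real, Real.norm_eq_abs,
          abs_of_nonneg (sq_nonneg t), ← sq]
        have h7 : ‖(1 : C)‖ ≤ 1 := by
          rcases subsingleton_or_nontrivial C with hC | hC
          · rw [Subsingleton.elim (1 : C) 0, norm_zero]; norm_num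
          · rw [CStarRing.norm_one]
        nlinarith [sq_nonneg t]
      have h8 : ((f a).im + t) ^ 2 ≤ ‖f a + t * Complex.I‖ ^ 2 := by
        rw [← Complex.normSq_eq_norm_sq, Complex.normSq_apply]
        simp
        nlinarith [sq_nonneg (f a).re]
      have h9 : ‖f a + t * Complex.I‖ ^ 2 ≤ ‖a + (t * Complex.I) • (1 : C)‖ ^ 2 :=
        pow_le_pow_left₀ (norm_nonneg _) h2 2
      linarith
    by_contra hne
    have h1 := key ((‖a‖ ^ 2 + 1) / (f a).im)
    have h2 : 2 * (f a).im * ((‖a‖ ^ 2 + 1) / (f a).im) = 2 * (‖a‖ ^ 2 + 1) := by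
      field_simp
    nlinarith [sq_nonneg (f a).im, sq_nonneg ‖a‖]
  have hre : 0 ≤ (f a).re := by
    have h1 : ‖((‖a‖ : ℝ) : ℂ) • (1 : C) - a‖ ≤ ‖a‖ := by
      have h2 : a ≤ algebraMap ℝ C ‖a‖ :=
        IsSelfAdjoint.le_algebraMap_norm_self (IsSelfAdjoint.of_nonneg ha)
      have h3 : algebraMap ℝ C ‖a‖ = ((‖a‖ : ℝ) : ℂ) • (1 : C) := by
        rw [Algebra.algebraMap_eq_smul_one, Complex.coe_smul]
      rw [h3] at h2
      have h4 : ‖((‖a‖ : ℝ) : ℂ) • (1 : C) - a‖ ≤ ‖((‖a‖ : ℝ) : ℂ) • (1 : C)‖ := by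
        apply CStarAlgebra.norm_le_norm_of_nonneg_of_le (sub_nonneg.2 h2)
        exact sub_le_self _ ha
      refine h4.trans ?_
      rw [norm_smul, Complex.norm_real, norm_norm]
      have h7 : ‖(1 : C)‖ ≤ 1 := by
        rcases subsingleton_or_nontrivial C with hC | hC
        · rw [Subsingleton.elim (1 : C) 0, norm_zero]; norm_num
        · rw [CStarRing.norm_one]
      nlinarith [norm_nonneg a]
    have h2 := (hnorm (((‖a‖ : ℝ) : ℂ) • (1 : C) - a)).trans h1
    rw [hsub, hsmul, hone, mul_one] at h2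
    have h3 : ((‖a‖ : ℂ) - f a).re ≤ ‖(‖a‖ : ℂ) - f a‖ := Complex.re_le_norm _
    rw [Complex.sub_re, Complex.ofReal_re] at h3
    linarith
  rw [Complex.nonneg_iff]
  exact ⟨hre, him.symm⟩

end ideals

end Pool.Agent.Helper757.TI
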