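import Pool.Agent.Helper757.TI.Final

set_option autoImplicit false

open scoped InnerProductSpace ComplexOrder Topology

noncomputable section

namespace Pool.Agent.Helper757.TI

/-- Sanity check: the complex numbers are type I. -/
theorem isTypeI_complex : IsTypeI ℂ := by
  intro K _ _ _ σ hσ T _
  let π : ℂ →⋆ₙₐ[ℂ] (K →L[ℂ] K) := σ
  have hπ : (∃ b, π b ≠ 0) ∧ ∀ E : Submodule ℂ K, IsClosed (E : Set K) →
      (∀ b, ∀ x ∈ E, π b x ∈ E) → E = ⊥ ∨ E = ⊤ := hσ
  show ∃ b, π b = T
  obtain ⟨⟨b, hb⟩, hirr⟩ := hπ
  have hlin : ∀ z : ℂ, π z = z • π 1 := by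
    intro z
    have h1 : z = z • (1 : ℂ) := by simp
    conv_lhs => rw [h1]
    rw [map_smul]
  have hp : π 1 * π 1 = π 1 := by rw [← map_mul, one_mul]
  have hp0 : π 1 ≠ 0 := by
    intro h0
    apply hb
    rw [hlin, h0, smul_zero]
  -- the kernel of the projection is trivial
  have hker : ∀ x, π 1 x = x := by
    let E : Submodule ℂ K := LinearMap.ker ((π 1 : K →L[ℂ] K) : K →ₗ[ℂ] K)
    have hE : IsClosed (E : Set K) := (π 1).isClosed_ker
    rcases hirr E hE (by
      intro b x hx
      have hx' : π 1 x = 0 := hx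
      show π 1 (π b x) = 0
      rw [hlin b, smul_apply, hx', smul_zero, map_zero]) with h | h
    · intro x
      have h1 : π 1 x - x ∈ E := by
        show π 1 (π 1 x - x) = 0
        rw [map_sub]
        have h2 : π 1 (π 1 x) = π 1 x := by
          conv_rhs => rw [← hp]
          rfl
        rw [h2, sub_self]
      rw [h, Submodule.mem_bot] at h1
      exact sub_eq_zero.1 h1
    · exfalso
      apply hp0
      ext x
      have : x ∈ E := by rw [h]; exact Submodule.mem_top
      exact this
  obtain ⟨x0, hx0⟩ : ∃ x, π 1 x ≠ 0 := by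
    by_contra hcon
    push Not at hcon
    apply hp0
    ext x
    exact hcon x
  rw [hker] at hx0
  have htop : Submodule.span ℂ {x0} = ⊤ := by
    rcases hirr (Submodule.span ℂ {x0}) (Submodule.closed_of_finiteDimensional _) (by
      intro b x hx
      rw [hlin b, smul_apply, hker]
      exact Submodule.smul_mem _ _ hx) with h | h
    · exfalso
      apply hx0
      have : x0 ∈ Submodule.span ℂ {x0} := Submodule.mem_span_singleton_self x0
      rw [h, Submodule.mem_bot] at this
      exact this
    · exact h
  have hmem : ∀ y : K, ∃ z : ℂ, z • x0 = y := by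
    intro y
    have : y ∈ Submodule.span ℂ {x0} := by rw [htop]; exact Submodule.mem_top
    exact Submodule.mem_span_singleton.1 this
  obtain ⟨z, hz⟩ := hmem (T x0)
  refine ⟨z, ?_⟩
  ext y
  obtain ⟨w, rfl⟩ := hmem y
  rw [hlin z, smul_apply, hker, map_smul, ← hz, smul_comm]

/-- Sanity check: the Cuntz algebra is not stably finite. -/
theorem D2_not_stablyFinite : ¬ IsStablyFinite D2 := by
  intro h
  let v : Matrix (Fin 1) (Fin 1) D2 := Matrix.of fun _ _ => sD false
  have hv : ∀ i j, v i j = sD false := fun _ _ => rfl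
  have h1 := h 1 v (by
    ext i j
    rw [Matrix.mul_apply, Fin.sum_univ_one, Subsingleton.elim i 0, Subsingleton.elim j 0,
      Matrix.one_apply_eq, Matrix.star_apply, hv]
    exact sD_star_mul false)
  have h2 := congrFun (congrFun h1 0) 0
  rw [Matrix.mul_apply, Fin.sum_univ_one, Matrix.one_apply_eq, Matrix.star_apply, hv] at h2
  have h3 : sD false * star (sD false) = 1 := h2
  have h4 := sD_sum
  rw [Fintype.sum_bool, h3, add_eq_right] at h4
  have h5 : star (sD true) * (sD true * star (sD true)) * sD true = 1 := by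
    rw [← mul_assoc, sD_star_mul, one_mul, sD_star_mul]
  rw [h4, mul_zero, zero_mul] at h5
  exact zero_ne_one h5

end Pool.Agent.Helper757.TI
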